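import Mathlib

/-! Commensurability of topological groups. -/

namespace Pool.Agent.Q24.RB

open Topology

/-- Two topological groups are commensurable if an open subgroup of the first is isomorphic to an
open subgroup of the second. -/
def Comm (G H : Type) [Group G] [TopologicalSpace G] [Group H] [TopologicalSpace H] : Prop :=
  ∃ (A : Subgroup G) (B : Subgroup H), IsOpen (A : Set G) ∧ IsOpen (B : Set H) ∧
    Nonempty (A ≃ₜ* B)

/-- Spans of open embeddings. -/
def Sp (G H : Type) [Group G] [TopologicalSpace G] [Group H] [TopologicalSpace H] : Prop :=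
  ∃ (X : Type) (_ : Group X) (_ : TopologicalSpace X) (f : X →* G) (g : X →* H),
    IsOpenEmbedding f ∧ IsOpenEmbedding g

theorem Sp.of_comm {G H : Type} [Group G] [TopologicalSpace G] [Group H] [TopologicalSpace H]
    (h : Comm G H) : Sp G H := by
  obtain ⟨A, B, hA, hB, ⟨φ⟩⟩ := h
  refine ⟨A, inferInstance, inferInstance, A.subtype, B.subtype.comp φ.toMulEquiv.toMonoidHom,
    hA.isOpenEmbedding_subtypeVal, ?_⟩
  have h1 : IsOpenEmbedding (Subtype.val : B → H) := hB.isOpenEmbedding_subtypeVal
  exact h1.comp φ.toHomeomorph.isOpenEmbedding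

/-- The isomorphism of an openly embedded group with its image. -/
noncomputable def rangeIso {X G : Type} [Group G] [TopologicalSpace G] [Group X]
    [TopologicalSpace X] (f : X →* G) (hf : IsOpenEmbedding f) : X ≃ₜ* f.range :=
  { MonoidHom.ofInjective hf.injective with
    continuous_toFun := by
      exact hf.continuous.subtype_mk _
    continuous_invFun := by
      have h1 : IsOpenMap (fun x : X => (⟨f x, x, rfl⟩ : f.range)) := by
        intro s hs
        have h2 := hf.isOpenMap s hs
        refine ⟨f '' s, h2, ?_⟩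
        ext ⟨y, x, rfl⟩
        constructor
        · rintro ⟨z, hz, hzx⟩
          have := hf.injective hzx
          subst this
          exact ⟨z, hz, rfl⟩
        · rintro ⟨z, hz, hzx⟩
          have := hf.injective (congrArg Subtype.val hzx)
          subst this
          exact ⟨z, hz, rfl⟩
      let e : X ≃ f.range := (MonoidHom.ofInjective hf.injective).toEquiv
      have h3 : IsOpenMap e := h1
      exact (Equiv.toHomeomorphOfContinuousOpen e (hf.continuous.subtype_mk _) h3).continuous_symm }

theorem Comm.of_sp {G H : Type} [Group G] [TopologicalSpace G] [Group H] [TopologicalSpace H]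
    (h : Sp G H) : Comm G H := by
  obtain ⟨X, iX, tX, f, g, hf, hg⟩ := h
  exact ⟨f.range, g.range, hf.isOpen_range, hg.isOpen_range,
    ⟨(rangeIso f hf).symm.trans (rangeIso g hg)⟩⟩

theorem Sp.symm {G H : Type} [Group G] [TopologicalSpace G] [Group H] [TopologicalSpace H]
    (h : Sp G H) : Sp H G := by
  obtain ⟨X, iX, tX, f, g, hf, hg⟩ := h
  exact ⟨X, iX, tX, g, f, hg, hf⟩

theorem Sp.refl (G : Type) [Group G] [TopologicalSpace G] : Sp G G :=
  ⟨G, inferInstance, inferInstance, MonoidHom.id G, MonoidHom.id G, IsOpenEmbedding.id,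
    IsOpenEmbedding.id⟩

theorem Sp.of_iso {G H : Type} [Group G] [TopologicalSpace G] [Group H] [TopologicalSpace H]
    (φ : G ≃ₜ* H) : Sp G H :=
  ⟨G, inferInstance, inferInstance, MonoidHom.id G, φ.toMulEquiv.toMonoidHom, IsOpenEmbedding.id,
    φ.toHomeomorph.isOpenEmbedding⟩

theorem Sp.of_emb {G H : Type} [Group G] [TopologicalSpace G] [Group H] [TopologicalSpace H]
    (f : G →* H) (hf : IsOpenEmbedding f) : Sp G H :=
  ⟨G, inferInstance, inferInstance, MonoidHom.id G, f, IsOpenEmbedding.id, hf⟩

theorem Sp.trans {G H K : Type} [Group G] [TopologicalSpace G] [Group H] [TopologicalSpace H]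
    [Group K] [TopologicalSpace K] (h1 : Sp G H) (h2 : Sp H K) : Sp G K := by
  obtain ⟨X, iX, tX, f, g, hf, hg⟩ := h1
  obtain ⟨Y, iY, tY, f', g', hf', hg'⟩ := h2
  let P : Subgroup (X × Y) := MonoidHom.eqLocus (g.comp (MonoidHom.fst X Y))
    (f'.comp (MonoidHom.snd X Y))
  have hp : ∀ p : P, g p.1.1 = f' p.1.2 := fun p => p.2
  have key1 : IsOpenEmbedding (fun p : P => p.1.1) := by
    refine IsOpenEmbedding.of_continuous_injective_isOpenMap ?_ ?_ ?_
    · exact continuous_fst.comp continuous_subtype_val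
    · intro p p' h
      apply Subtype.ext
      apply Prod.ext h
      apply hf'.injective
      have h' : p.1.1 = p'.1.1 := h
      rw [← hp, ← hp, h']
    · intro s hs
      obtain ⟨t, ht, rfl⟩ := hs
      rw [isOpen_iff_mem_nhds]
      rintro _ ⟨p, hpt, rfl⟩
      obtain ⟨u, v, hu, hv, hpu, hpv, huv⟩ := isOpen_prod_iff.mp ht p.1.1 p.1.2 hpt
      have h3 : IsOpen (u ∩ g ⁻¹' (f' '' v)) :=
        hu.inter ((hf'.isOpenMap v hv).preimage hg.continuous)
      refine Filter.mem_of_superset (h3.mem_nhds ⟨hpu, p.1.2, hpv, (hp p).symm⟩) ?_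
      rintro x ⟨hxu, y, hyv, hxy⟩
      exact ⟨⟨(x, y), hxy.symm⟩, huv ⟨hxu, hyv⟩, rfl⟩
  have key2 : IsOpenEmbedding (fun p : P => p.1.2) := by
    refine IsOpenEmbedding.of_continuous_injective_isOpenMap ?_ ?_ ?_
    · exact continuous_snd.comp continuous_subtype_val
    · intro p p' h
      apply Subtype.ext
      refine Prod.ext ?_ h
      apply hg.injective
      have h' : p.1.2 = p'.1.2 := h
      rw [hp, hp, h']
    · intro s hs
      obtain ⟨t, ht, rfl⟩ := hs
      rw [isOpen_iff_mem_nhds]
      rintro _ ⟨p, hpt, rfl⟩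
      obtain ⟨u, v, hu, hv, hpu, hpv, huv⟩ := isOpen_prod_iff.mp ht p.1.1 p.1.2 hpt
      have h3 : IsOpen (v ∩ f' ⁻¹' (g '' u)) :=
        hv.inter ((hg.isOpenMap u hu).preimage hf'.continuous)
      refine Filter.mem_of_superset (h3.mem_nhds ⟨hpv, p.1.1, hpu, hp p⟩) ?_
      rintro y ⟨hyv, x, hxu, hxy⟩
      exact ⟨⟨(x, y), hxy⟩, huv ⟨hxu, hyv⟩, rfl⟩
  exact ⟨P, inferInstance, inferInstance, f.comp ((MonoidHom.fst X Y).comp P.subtype),
    g'.comp ((MonoidHom.snd X Y).comp P.subtype), hf.comp key1, hg'.comp key2⟩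

theorem Sp.pi {ι G H : Type} [Finite ι] [Group G] [TopologicalSpace G] [Group H]
    [TopologicalSpace H] (h : Sp G H) : Sp (ι → G) (ι → H) := by
  obtain ⟨X, iX, tX, f, g, hf, hg⟩ := h
  exact ⟨ι → X, inferInstance, inferInstance, MonoidHom.compLeft f ι, MonoidHom.compLeft g ι,
    IsOpenEmbedding.piMap fun _ => hf, IsOpenEmbedding.piMap fun _ => hg⟩

theorem Sp.prod {G H G' H' : Type} [Group G] [TopologicalSpace G] [Group H]
    [TopologicalSpace H] [Group G'] [TopologicalSpace G'] [Group H']
    [TopologicalSpace H'] (h : Sp G H) (h' : Sp G' H') : Sp (G × G') (H × H') := by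
  obtain ⟨X, iX, tX, f, g, hf, hg⟩ := h
  obtain ⟨Y, iY, tY, f', g', hf', hg'⟩ := h'
  exact ⟨X × Y, inferInstance, inferInstance, f.prodMap f', g.prodMap g', hf.prodMap hf',
    hg.prodMap hg'⟩

/-- Reindexing. -/
def reindexIso {ι κ : Type} (G : Type) [Group G] [TopologicalSpace G] (e : ι ≃ κ) :
    (κ → G) ≃ₜ* (ι → G) where
  toFun f := f ∘ e
  invFun f := f ∘ e.symm
  left_inv f := by ext; simp
  right_inv f := by ext; simp
  map_mul' f g := rfl
  continuous_toFun := continuous_pi fun i => continuous_apply _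
  continuous_invFun := continuous_pi fun i => continuous_apply _

/-- Functions on a sum. -/
def sumIso (ι κ G : Type) [Group G] [TopologicalSpace G] :
    (ι ⊕ κ → G) ≃ₜ* (ι → G) × (κ → G) where
  toFun f := (fun i => f (Sum.inl i), fun i => f (Sum.inr i))
  invFun f := Sum.elim f.1 f.2
  left_inv f := by ext (i | i) <;> rfl
  right_inv f := rfl
  map_mul' f g := rfl
  continuous_toFun := (continuous_pi fun i => continuous_apply _).prodMk
    (continuous_pi fun i => continuous_apply _)
  continuous_invFun := continuous_pi fun i => by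
    rcases i with i | i
    · exact (continuous_apply i).comp continuous_fst
    · exact (continuous_apply i).comp continuous_snd

/-- Currying. -/
def curryIso (ι κ G : Type) [Group G] [TopologicalSpace G] :
    (ι × κ → G) ≃ₜ* (ι → κ → G) where
  toFun f := fun i k => f (i, k)
  invFun f := fun p => f p.1 p.2
  left_inv f := rfl
  right_inv f := rfl
  map_mul' f g := rfl
  continuous_toFun := continuous_pi fun i => continuous_pi fun k => continuous_apply _
  continuous_invFun := continuous_pi fun p => (continuous_apply p.2).comp (continuous_apply p.1)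

/-- Functions on a point. -/
def uniqueIso (G : Type) [Group G] [TopologicalSpace G] : (Unit → G) ≃ₜ* G where
  toFun f := f ()
  invFun g := fun _ => g
  left_inv f := rfl
  right_inv f := rfl
  map_mul' f g := rfl
  continuous_toFun := continuous_apply _
  continuous_invFun := continuous_pi fun _ => continuous_id

/-- Commensurability of powers depends on cardinalities only. -/
theorem Sp.pow_add {G : Type} [Group G] [TopologicalSpace G] (a b : ℕ) :
    Sp (Fin (a + b) → G) ((Fin a → G) × (Fin b → G)) :=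
  (Sp.of_iso (reindexIso G finSumFinEquiv)).trans (Sp.of_iso (sumIso _ _ G))

theorem Sp.pow_mul {G : Type} [Group G] [TopologicalSpace G] (a b : ℕ) :
    Sp (Fin (a * b) → G) (Fin a → Fin b → G) :=
  (Sp.of_iso (reindexIso G finProdFinEquiv)).trans (Sp.of_iso (curryIso _ _ G))

theorem Sp.pow_one {G : Type} [Group G] [TopologicalSpace G] : Sp (Fin 1 → G) G :=
  (Sp.of_iso (reindexIso G (Equiv.ofUnique Unit (Fin 1)))).trans (Sp.of_iso (uniqueIso G))

/-- If `G` is commensurable with its square, it is commensurable with all its positive powers. -/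
theorem Sp.all_pow {G : Type} [Group G] [TopologicalSpace G] (h : Sp G (Fin 2 → G)) (n : ℕ) :
    Sp G (Fin (n + 1) → G) := by
  induction n with
  | zero => exact Sp.pow_one.symm
  | succ n ih =>
    have h1 : Sp (Fin (n + 1 + 1) → G) ((Fin (n + 1) → G) × (Fin 1 → G)) := Sp.pow_add _ _
    have h2 : Sp ((Fin 1 → G) × (Fin 1 → G)) ((Fin (n + 1) → G) × (Fin 1 → G)) :=
      (Sp.pow_one.trans ih).prod (Sp.refl _)
    have h3 : Sp (Fin 2 → G) ((Fin 1 → G) × (Fin 1 → G)) := Sp.pow_add 1 1
    exact h.trans (h3.trans (h2.trans h1.symm))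

end Pool.Agent.Q24.RB
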