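import Pool.Agent.Q24.RB.Tree
import Pool.Agent.Q24.RB.Comm

/-! The full automorphism group of a spherically homogeneous rooted tree. -/

namespace Pool.Agent.Q24.RB

open Topology

variable {q : ℕ → ℕ}

theorem autT_of_trunc {g : LP q}
    (h : ∀ k n (hkn : k ≤ n) (w : Vert q n), trunc hkn (g n w) = g k (trunc hkn w)) :
    g ∈ AutT q := by
  intro m n v w
  constructor
  · intro h1
    obtain ⟨hle, h2⟩ := below_iff.mp h1
    rw [h, (g m).injective.eq_iff] at h2
    exact below_iff.mpr ⟨hle, h2⟩
  · intro h1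
    obtain ⟨hle, h2⟩ := below_iff.mp h1
    refine below_iff.mpr ⟨hle, ?_⟩
    rw [h, h2]

/-- `x` is below a member of `S`. -/
def BS {m : ℕ} (S : Set (Vert q m)) {n : ℕ} (x : Vert q n) : Prop := ∃ v ∈ S, Below v x

theorem BS_act {g : LP q} (hg : g ∈ AutT q) {m : ℕ} {S : Set (Vert q m)}
    (hS : ∀ v ∈ S, g m v = v) {n : ℕ} (x : Vert q n) : BS S (g n x) ↔ BS S x := by
  constructor
  · rintro ⟨v, hv, h⟩
    refine ⟨v, hv, ?_⟩
    rw [← hg m n, hS v hv]; exact h
  · rintro ⟨v, hv, h⟩
    refine ⟨v, hv, ?_⟩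
    rw [← hg m n, hS v hv] at h; exact h

theorem BS_act_inv {g : LP q} (hg : g ∈ AutT q) {m : ℕ} {S : Set (Vert q m)}
    (hS : ∀ v ∈ S, g m v = v) {n : ℕ} (x : Vert q n) : BS S ((g n)⁻¹ x) ↔ BS S x := by
  rw [← BS_act hg hS, pinv]

open Classical in
/-- The part of `g` supported on the subtrees rooted at the vertices of `S`. -/
noncomputable def cut {g : LP q} (hg : g ∈ AutT q) {m : ℕ} {S : Set (Vert q m)}
    (hS : ∀ v ∈ S, g m v = v) : LP q := fun n =>
  { toFun := fun x => if BS S x then g n x else x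
    invFun := fun x => if BS S x then (g n)⁻¹ x else x
    left_inv := fun x => by
      by_cases h : BS S x
      · simp only [h, if_true, BS_act hg hS, pinv']
      · simp only [h, if_false]
    right_inv := fun x => by
      by_cases h : BS S x
      · simp only [h, if_true, BS_act_inv hg hS, pinv]
      · simp only [h, if_false] }

theorem cut_of_mem {g : LP q} (hg : g ∈ AutT q) {m : ℕ} {S : Set (Vert q m)}
    (hS : ∀ v ∈ S, g m v = v) {n : ℕ} {x : Vert q n} (hx : BS S x) :
    cut hg hS n x = g n x := by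
  classical
  exact if_pos hx

theorem cut_of_not {g : LP q} (hg : g ∈ AutT q) {m : ℕ} {S : Set (Vert q m)}
    (hS : ∀ v ∈ S, g m v = v) {n : ℕ} {x : Vert q n} (hx : ¬ BS S x) :
    cut hg hS n x = x := by
  classical
  exact if_neg hx

theorem cut_mem {g : LP q} (hg : g ∈ AutT q) {m : ℕ} {S : Set (Vert q m)}
    (hS : ∀ v ∈ S, g m v = v) : cut hg hS ∈ AutT q := by
  apply autT_of_trunc
  intro k n hkn w
  by_cases hw : BS S w
  · rw [cut_of_mem hg hS hw, AutT.trunc hg]
    by_cases hw' : BS S (trunc hkn w)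
    · rw [cut_of_mem hg hS hw']
    · rw [cut_of_not hg hS hw']
      obtain ⟨v, hv, hvw⟩ := hw
      obtain ⟨hmn, htr⟩ := below_iff.mp hvw
      by_cases hkm : k ≤ m
      · have h1 : trunc hkn w = trunc hkm v := by rw [← htr]; rfl
        rw [h1, ← AutT.trunc hg, hS v hv]
      · exfalso
        push Not at hkm
        apply hw'
        exact ⟨v, hv, below_iff.mpr ⟨hkm.le, by rw [trunc_trunc, htr]⟩⟩
  · rw [cut_of_not hg hS hw]
    have hw' : ¬ BS S (trunc hkn w) := by
      rintro ⟨v, hv, h⟩
      apply hw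
      obtain ⟨h1, h2⟩ := below_iff.mp h
      exact ⟨v, hv, below_iff.mpr ⟨h1.trans hkn, by rw [← h2]; rfl⟩⟩
    rw [cut_of_not hg hS hw']

theorem cut_singleton_mem {g : LP q} (hg : g ∈ AutT q) {m : ℕ} {v : Vert q m}
    (hS : ∀ u ∈ ({v} : Set (Vert q m)), g m u = u) : cut hg hS ∈ rist (AutT q) v := by
  refine ⟨cut_mem hg hS, fun n w hw => cut_of_not hg hS ?_⟩
  rintro ⟨u, hu, huw⟩
  rw [Set.mem_singleton_iff] at hu
  subst hu
  exact hw huw

theorem level_fix_le (hq : ∀ i, 2 ≤ q i) {g : LP q} (hg : g ∈ AutT q) {m : ℕ} (hm : g m = 1) :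
    g ∈ ristLevel (AutT q) m := by
  classical
  have hall : ∀ S : Set (Vert q m), ∀ v ∈ S, g m v = v := fun S v _ => by rw [hm]; rfl
  have key : ∀ S : Finset (Vert q m), cut hg (hall (S : Set (Vert q m))) ∈ ristLevel (AutT q) m := by
    intro S
    induction S using Finset.induction_on with
    | empty =>
      have : cut hg (hall ((∅ : Finset (Vert q m)) : Set (Vert q m))) = 1 := by
        funext n
        ext x : 1
        rw [cut_of_not]
        · rfl
        · rintro ⟨v, hv, -⟩
          simp at hv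
      rw [this]; exact one_mem _
    | insert v S hv ih =>
      have h1 : cut hg (hall ((insert v S : Finset (Vert q m)) : Set (Vert q m))) =
          cut hg (hall (S : Set (Vert q m))) * cut hg (hall ({v} : Set (Vert q m))) := by
        funext n
        ext x : 1
        show _ = cut hg (hall (S : Set (Vert q m))) n (cut hg (hall ({v} : Set (Vert q m))) n x)
        by_cases hx : Below v x
        · have hx1 : BS ({v} : Set (Vert q m)) x := ⟨v, rfl, hx⟩
          have hx2 : BS ((insert v S : Finset (Vert q m)) : Set (Vert q m)) x :=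
            ⟨v, by simp, hx⟩
          have hx3 : ¬ BS (S : Set (Vert q m)) x := by
            rintro ⟨u, hu, hux⟩
            obtain ⟨e1, e2⟩ := below_iff.mp hx
            obtain ⟨e3, e4⟩ := below_iff.mp hux
            have : u = v := e4.symm.trans e2
            subst this
            exact hv hu
          rw [cut_of_mem _ _ hx2, cut_of_mem _ _ hx1, cut_of_not]
          rw [BS_act hg (hall _)]
          exact hx3
        · have hx1 : ¬ BS ({v} : Set (Vert q m)) x := by
            rintro ⟨u, hu, hux⟩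
            rw [Set.mem_singleton_iff] at hu
            subst hu
            exact hx hux
          rw [cut_of_not _ _ hx1]
          by_cases hx3 : BS (S : Set (Vert q m)) x
          · rw [cut_of_mem _ _ hx3, cut_of_mem]
            obtain ⟨u, hu, hux⟩ := hx3
            exact ⟨u, by simp only [Finset.coe_insert]; exact Set.mem_insert_of_mem _ hu, hux⟩
          · rw [cut_of_not _ _ hx3, cut_of_not]
            rintro ⟨u, hu, hux⟩
            simp only [Finset.coe_insert] at hu
            rcases hu with rfl | hu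
            · exact hx hux
            · exact hx3 ⟨u, hu, hux⟩
      rw [h1]
      refine mul_mem ih ?_
      exact (le_iSup (fun v : Vert q m => rist (AutT q) v) v) (cut_singleton_mem hg (hall _))
  have h1 := key Finset.univ
  have h2 : cut hg (hall ((Finset.univ : Finset (Vert q m)) : Set (Vert q m))) = g := by
    funext n
    ext x : 1
    by_cases hmn : m ≤ n
    · rw [cut_of_mem]
      exact ⟨trunc hmn x, by simp, below_iff.mpr ⟨hmn, rfl⟩⟩
    · rw [cut_of_not]
      · -- levels above `m` are fixed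
        push Not at hmn
        obtain ⟨y, rfl⟩ := exists_ext hq hmn.le x
        rw [← AutT.trunc hg, hm]; rfl
      · rintro ⟨v, -, hv⟩
        exact hmn (below_iff.mp hv).1
  rw [h2] at h1
  exact h1

/-- The automorphism acting by coordinate permutations. -/
def co (σ : ∀ i, Equiv.Perm (Fin (q i))) : LP q := fun _ =>
  { toFun := fun x i => σ i (x i)
    invFun := fun x i => (σ i)⁻¹ (x i)
    left_inv := fun x => by ext i; simp [pinv']
    right_inv := fun x => by ext i; simp }

theorem co_mem (σ : ∀ i, Equiv.Perm (Fin (q i))) : co σ ∈ AutT q := by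
  apply autT_of_trunc
  intro k n hkn w
  rfl

/-- The coordinate swaps exchanging two vertices. -/
def sw {n : ℕ} (w w' : Vert q n) : ∀ i, Equiv.Perm (Fin (q i)) := fun i =>
  if h : i < n then Equiv.swap (w ⟨i, h⟩) (w' ⟨i, h⟩) else 1

theorem co_sw {n : ℕ} (w w' : Vert q n) : co (sw w w') n w = w' := by
  funext i
  show sw w w' i (w i) = w' i
  rw [sw, dif_pos i.2]
  exact Equiv.swap_apply_left _ _

theorem co_sw_fix {n : ℕ} (w w' : Vert q n) {m : ℕ} (h : m ≤ n) (hw : trunc h w = trunc h w') :
    co (sw w w') m (trunc h w) = trunc h w := by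
  funext i
  show sw w w' i (w (Fin.castLE h i)) = w (Fin.castLE h i)
  have h1 : w (Fin.castLE h i) = w' (Fin.castLE h i) := congrFun hw i
  have h2 : (i : ℕ) < n := lt_of_lt_of_le i.2 h
  rw [sw, dif_pos h2]
  have h3 : w ⟨i, h2⟩ = w' ⟨i, h2⟩ := h1
  rw [h3, Equiv.swap_self]
  rfl

theorem autT_transitive (m : ℕ) (v w : Vert q m) : ∃ g ∈ AutT q, g m v = w :=
  ⟨co (sw v w), co_mem _, co_sw v w⟩

theorem autT_TR {m n : ℕ} (h : m ≤ n) (v : Vert q m) (w w' : Vert q n) (hw : trunc h w = v)
    (hw' : trunc h w' = v) : ∃ g ∈ rist (AutT q) v, g n w = w' := by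
  have hS : ∀ u ∈ ({v} : Set (Vert q m)), co (sw w w') m u = u := by
    intro u hu
    rw [Set.mem_singleton_iff] at hu
    rw [hu, ← hw]
    exact co_sw_fix w w' h (hw.trans hw'.symm)
  refine ⟨cut (co_mem (sw w w')) hS, cut_singleton_mem _ _, ?_⟩
  rw [cut_of_mem, co_sw]
  exact ⟨v, rfl, below_iff.mpr ⟨h, hw⟩⟩

theorem autT_closed : IsClosed (AutT q : Set (LP q)) := by
  have : (AutT q : Set (LP q)) = ⋂ (m : ℕ) (n : ℕ) (v : Vert q m) (w : Vert q n),
      {g | Below (g m v) (g n w) ↔ Below v w} := by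
    ext g
    simp only [Set.mem_iInter]
    rfl
  rw [this]
  refine isClosed_iInter fun m => isClosed_iInter fun n => isClosed_iInter fun v =>
    isClosed_iInter fun w => ?_
  have hc : Continuous (fun g : LP q => (g m, g n)) :=
    (continuous_apply m).prodMk (continuous_apply n)
  exact (isClosed_discrete {p : Equiv.Perm (Vert q m) × Equiv.Perm (Vert q n) |
    Below (p.1 v) (p.2 w) ↔ Below v w}).preimage hc

theorem autT_branch (hq : ∀ i, 2 ≤ q i) : IsBranch (AutT q) := by
  refine ⟨le_rfl, autT_closed, autT_transitive, fun m => ?_⟩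
  set ev : LP q →* Equiv.Perm (Vert q m) := Pi.evalMonoidHom _ m with hev
  have h1 : ev.ker ⊓ AutT q ≤ ristLevel (AutT q) m := by
    rintro g ⟨hg1, hg2⟩
    exact level_fix_le hq hg2 hg1
  have h2 := Subgroup.relIndex_dvd_of_le_left (AutT q) h1
  have h3 : (ev.ker ⊓ AutT q).relIndex (AutT q) ≠ 0 := by
    rw [Subgroup.inf_relIndex_right]
    intro h
    have h5 : ev.ker.index ≠ 0 := Subgroup.FiniteIndex.index_ne_zero
    apply h5
    have h6 := Subgroup.relIndex_dvd_index_of_normal ev.ker (AutT q)
    rw [h] at h6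
    exact zero_dvd_iff.mp h6
  exact fun h => h3 (by rw [h] at h2; exact zero_dvd_iff.mp h2)

/-! ### First level decomposition -/

/-- The shifted branching sequence. -/
abbrev shift (q : ℕ → ℕ) : ℕ → ℕ := fun i => q (i + 1)

/-- The remaining coordinates. -/
def tl {n : ℕ} (x : Vert q (n + 1)) : Vert (shift q) n := fun i => x i.succ

/-- Adding a first coordinate. -/
def cn {n : ℕ} (a : Fin (q 0)) (y : Vert (shift q) n) : Vert q (n + 1) :=
  Fin.cons (α := fun i : Fin (n + 1) => Fin (q i)) a y

theorem cn_zero {n : ℕ} (a : Fin (q 0)) (y : Vert (shift q) n) : cn a y 0 = a := rfl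

theorem tl_cn {n : ℕ} (a : Fin (q 0)) (y : Vert (shift q) n) : tl (cn a y) = y := rfl

theorem cn_tl {n : ℕ} (x : Vert q (n + 1)) : cn (x 0) (tl x) = x :=
  Fin.cons_self_tail x

theorem trunc_cn {k n : ℕ} (h : k ≤ n) (a : Fin (q 0)) (y : Vert (shift q) n) :
    trunc (Nat.succ_le_succ h) (cn a y) = cn a (trunc h y) := by
  funext i
  refine Fin.cases ?_ (fun j => ?_) i
  · rfl
  · rfl

/-- The action of a family of automorphisms of the subtrees of level one. -/
def jn (g : Fin (q 0) → LP (shift q)) : LP q := fun n =>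
  match n with
  | 0 => 1
  | n + 1 =>
    { toFun := fun x => cn (x 0) (g (x 0) n (tl x))
      invFun := fun x => cn (x 0) ((g (x 0) n)⁻¹ (tl x))
      left_inv := fun x => by
        show cn _ ((g (x 0) n)⁻¹ (g (x 0) n (tl x))) = x
        rw [pinv']; exact cn_tl x
      right_inv := fun x => by
        show cn _ (g (x 0) n ((g (x 0) n)⁻¹ (tl x))) = x
        rw [pinv]; exact cn_tl x }

theorem jn_succ (g : Fin (q 0) → LP (shift q)) (n : ℕ) (x : Vert q (n + 1)) :
    jn g (n + 1) x = cn (x 0) (g (x 0) n (tl x)) := rfl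

theorem jn_mem {g : Fin (q 0) → LP (shift q)} (hg : ∀ a, g a ∈ AutT (shift q)) :
    jn g ∈ AutT q := by
  apply autT_of_trunc
  intro k n hkn w
  match k, n, hkn, w with
  | 0, n, hkn, w => exact Subsingleton.elim _ _
  | k + 1, n + 1, hkn, w =>
    have h1 : k ≤ n := Nat.le_of_succ_le_succ hkn
    rw [jn_succ, jn_succ]
    have h2 : trunc hkn (cn (w 0) (g (w 0) n (tl w))) = cn (w 0) (trunc h1 (g (w 0) n (tl w))) :=
      trunc_cn h1 _ _
    rw [h2, AutT.trunc (hg _)]
    rfl

/-- The embedding of the power as a homomorphism. -/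
def jnHom (q : ℕ → ℕ) : (Fin (q 0) → AutT (shift q)) →* AutT q where
  toFun g := ⟨jn fun a => (g a).1, jn_mem fun a => (g a).2⟩
  map_one' := by
    apply Subtype.ext
    funext n
    match n with
    | 0 => rfl
    | n + 1 => ext x : 1; exact cn_tl x
  map_mul' g h := by
    apply Subtype.ext
    funext n
    match n with
    | 0 => rfl
    | n + 1 => ext x : 1; rfl

theorem jnHom_injective : Function.Injective (jnHom q) := by
  intro g h hgh
  funext a
  apply Subtype.ext
  funext n
  ext y : 1
  have h1 : jn (fun a => (g a).1) (n + 1) (cn a y) = jn (fun a => (h a).1) (n + 1) (cn a y) := by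
    have := congrArg (fun z : AutT q => z.1 (n + 1) (cn a y)) hgh
    exact this
  have h2 := congrArg tl h1
  exact h2

theorem jnHom_continuous : Continuous (jnHom q) := by
  refine Continuous.subtype_mk ?_ _
  refine continuous_pi fun n => ?_
  match n with
  | 0 => exact continuous_const
  | n + 1 =>
    let Φ : (Fin (q 0) → Equiv.Perm (Vert (shift q) n)) → Equiv.Perm (Vert q (n + 1)) := fun h =>
      { toFun := fun x => cn (x 0) (h (x 0) (tl x))
        invFun := fun x => cn (x 0) ((h (x 0))⁻¹ (tl x))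
        left_inv := fun x => by
          show cn _ ((h (x 0))⁻¹ (h (x 0) (tl x))) = x
          rw [pinv']; exact cn_tl x
        right_inv := fun x => by
          show cn _ (h (x 0) ((h (x 0))⁻¹ (tl x))) = x
          rw [pinv]; exact cn_tl x }
    have h1 : Continuous Φ := continuous_of_discreteTopology
    have h2 : Continuous (fun g : Fin (q 0) → AutT (shift q) => fun a => (g a).1 n) :=
      continuous_pi fun a => (continuous_apply n).comp
        (continuous_subtype_val.comp (continuous_apply a))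
    exact h1.comp h2

theorem jnHom_range : ∀ h : AutT q, h.1 1 = 1 → h ∈ (jnHom q).range := by
  intro h h1
  have hfix : ∀ n (x : Vert q (n + 1)), (h.1 (n + 1) x) 0 = x 0 := by
    intro n x
    have h2 := AutT.trunc h.2 (Nat.succ_le_succ (Nat.zero_le n)) x
    rw [h1] at h2
    exact congrFun h2 0
  have hfix' : ∀ n (x : Vert q (n + 1)), ((h.1 (n + 1))⁻¹ x) 0 = x 0 := by
    intro n x
    have := hfix n ((h.1 (n + 1))⁻¹ x)
    rw [pinv] at this
    exact this.symm
  let g : Fin (q 0) → LP (shift q) := fun a n =>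
    { toFun := fun y => tl (h.1 (n + 1) (cn a y))
      invFun := fun y => tl ((h.1 (n + 1))⁻¹ (cn a y))
      left_inv := fun y => by
        show tl ((h.1 (n + 1))⁻¹ (cn a (tl (h.1 (n + 1) (cn a y))))) = y
        have : cn a (tl (h.1 (n + 1) (cn a y))) = h.1 (n + 1) (cn a y) := by
          conv_rhs => rw [← cn_tl (h.1 (n + 1) (cn a y)), hfix]
          rfl
        rw [this, pinv', tl_cn]
      right_inv := fun y => by
        show tl ((h.1 (n + 1)) (cn a (tl ((h.1 (n + 1))⁻¹ (cn a y))))) = y
        have : cn a (tl ((h.1 (n + 1))⁻¹ (cn a y))) = (h.1 (n + 1))⁻¹ (cn a y) := by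
          conv_rhs => rw [← cn_tl ((h.1 (n + 1))⁻¹ (cn a y)), hfix']
          rfl
        rw [this, pinv, tl_cn] }
  have hg : ∀ a, g a ∈ AutT (shift q) := by
    intro a
    apply autT_of_trunc
    intro k n hkn w
    show trunc hkn (tl (h.1 (n + 1) (cn a w))) = tl (h.1 (k + 1) (cn a (trunc hkn w)))
    rw [← trunc_cn hkn, ← AutT.trunc h.2]
    rfl
  refine ⟨fun a => ⟨g a, hg a⟩, ?_⟩
  apply Subtype.ext
  funext n
  match n with
  | 0 =>
    ext x : 1
    exact Subsingleton.elim _ _
  | n + 1 =>
    ext x : 1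
    show cn (x 0) (tl (h.1 (n + 1) (cn (x 0) (tl x)))) = h.1 (n + 1) x
    rw [cn_tl]
    conv_rhs => rw [← cn_tl (h.1 (n + 1) x), hfix]

instance : CompactSpace (AutT q) := isCompact_iff_compactSpace.mp autT_closed.isCompact

theorem jnHom_openEmb : IsOpenEmbedding (jnHom q) := by
  have h1 : IsClosedEmbedding (jnHom q) :=
    jnHom_continuous.isClosedEmbedding jnHom_injective
  refine ⟨h1.isEmbedding, ?_⟩
  have h2 : IsOpen ({h : AutT q | h.1 1 = 1}) := by
    have hc : Continuous (fun h : AutT q => h.1 1) :=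
      (continuous_apply 1).comp continuous_subtype_val
    exact (isOpen_discrete {x : Equiv.Perm (Vert q 1) | x = 1}).preimage hc
  have h3 : IsOpen ((jnHom q).range : Set (AutT q)) :=
    Subgroup.isOpen_of_mem_nhds _ (g := 1)
      (Filter.mem_of_superset (h2.mem_nhds rfl) (fun h hh => jnHom_range h hh))
  exact h3

theorem sp_shift (q : ℕ → ℕ) : Sp (AutT q) (Fin (q 0) → AutT (shift q)) :=
  (Sp.of_emb (jnHom q) jnHom_openEmb).symm

end Pool.Agent.Q24.RB
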