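import Mathlib

/-! Groups acting on rooted forests with a family of rigid stabilisers: supports of commuting
subgroups. -/

namespace Pool.Agent.Q24.RB

/-- A group acting on a rooted forest, with a family of large subgroups supported at the vertices. -/
structure BF (G V : Type) [Group G] where
  act : G →* Equiv.Perm V
  lev : V → ℕ
  anc : ℕ → V → V
  lev_anc : ∀ k v, k ≤ lev v → lev (anc k v) = k
  anc_lev : ∀ v, anc (lev v) v = v
  anc_anc : ∀ j k v, j ≤ k → k ≤ lev v → anc j (anc k v) = anc j v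
  fin : ∀ l, {v | lev v = l}.Finite
  desc : ∀ v l, lev v ≤ l → ∃ w, lev w = l ∧ anc (lev v) w = v
  lev_act : ∀ g v, lev (act g v) = lev v
  anc_act : ∀ g k v, k ≤ lev v → anc k (act g v) = act g (anc k v)
  R : V → Subgroup G
  R_supp : ∀ v g, g ∈ R v → ∀ w, lev v ≤ lev w → anc (lev v) w ≠ v → act g w = w
  R_mono : ∀ v w, lev v ≤ lev w → anc (lev v) w = v → R w ≤ R v
  R_conj : ∀ g v h, h ∈ R v → g * h * g⁻¹ ∈ R (act g v)
  R_nonab : ∀ v, ∃ g ∈ R v, ∃ h ∈ R v, g * h ≠ h * g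
  R_moves : ∀ l0, ∃ l1, l0 ≤ l1 ∧ ∀ w, l1 ≤ lev w → ∃ g ∈ R (anc l0 w), act g w ≠ w
  faithful : ∀ g l, (∀ w, l ≤ lev w → act g w = w) → g = 1

namespace BF

variable {G V : Type} [Group G] (F : BF G V)

/-- An element supported at `v` fixes `v`. -/
theorem R_fix {v : V} {g : G} (hg : g ∈ F.R v) : F.act g v = v := by
  by_contra h
  have h1 : F.lev (F.act g v) = F.lev v := F.lev_act g v
  have h2 := F.R_supp v g hg (F.act g v) h1.ge (by rw [← h1, F.anc_lev]; exact h)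
  exact h ((F.act g).injective h2)

theorem act_moves {g : G} {w u : V} (h : F.lev w ≤ F.lev u) (hu : F.anc (F.lev w) u = w)
    (hg : F.act g w ≠ w) : F.act g u ≠ u := by
  intro h1
  apply hg
  have h2 := F.anc_act g (F.lev w) u h
  rw [h1, hu] at h2
  exact h2.symm

theorem disj (Q₁ Q₂ : Subgroup G) (comm : ∀ a ∈ Q₁, ∀ b ∈ Q₂, a * b = b * a) (w : V)
    (n1 : ∀ h ∈ F.R w, ∀ a ∈ Q₁, h * a * h⁻¹ ∈ Q₁) (n2 : ∀ h ∈ F.R w, ∀ a ∈ Q₂, h * a * h⁻¹ ∈ Q₂)
    {a b : G} (ha : a ∈ Q₁) (hb : b ∈ Q₂) (haw : F.act a w ≠ w) (hbw : F.act b w ≠ w) : False := by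
  obtain ⟨g, hg, h, hh, hgh⟩ := F.R_nonab w
  apply hgh
  -- the two commutators
  have key : ∀ (Q : Subgroup G) (n : ∀ h ∈ F.R w, ∀ a ∈ Q, h * a * h⁻¹ ∈ Q) (a g : G), a ∈ Q →
      g ∈ F.R w → F.act a w ≠ w → (a * g⁻¹ * a⁻¹) * g ∈ Q ∧
        ∀ u, F.lev w ≤ F.lev u → F.anc (F.lev w) u = w →
          F.act ((a * g⁻¹ * a⁻¹) * g) u = F.act g u := by
    intro Q n a g ha hg haw
    constructor
    · have h1 := n g⁻¹ ((F.R w).inv_mem hg) a⁻¹ (Q.inv_mem ha)
      have h2 := Q.mul_mem ha h1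
      have h3 : a * (g⁻¹ * a⁻¹ * g⁻¹⁻¹) = a * g⁻¹ * a⁻¹ * g := by group
      rwa [h3] at h2
    · intro u hu hu'
      rw [map_mul, Equiv.Perm.mul_apply]
      have h1 := F.R_conj a w g⁻¹ ((F.R w).inv_mem hg)
      refine F.R_supp _ _ h1 _ ?_ ?_
      · rw [F.lev_act, F.lev_act]; exact hu
      · rw [F.lev_act, F.anc_act g _ _ hu, hu', F.R_fix hg]
        exact fun h => haw h.symm
  obtain ⟨h1, h1'⟩ := key Q₁ n1 a g ha hg haw
  obtain ⟨h2, h2'⟩ := key Q₂ n2 b h hb hh hbw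
  have hcomm := comm _ h1 _ h2
  have hfix : ∀ (g : G), g ∈ F.R w → ∀ u, F.lev w ≤ F.lev u → F.anc (F.lev w) u = w →
      F.anc (F.lev w) (F.act g u) = w := by
    intro g hg u hu hu'
    rw [F.anc_act g _ _ hu, hu', F.R_fix hg]
  have h3 : (g * h) * (h * g)⁻¹ = 1 := by
    apply F.faithful _ (F.lev w)
    intro u hu
    -- it suffices to compare on every vertex
    have hcmp : ∀ u, F.lev w ≤ F.lev u → F.act (g * h) u = F.act (h * g) u := by
      intro u hu
      by_cases hw : F.anc (F.lev w) u = w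
      · have e1 : F.act (((a * g⁻¹ * a⁻¹) * g) * ((b * h⁻¹ * b⁻¹) * h)) u = F.act (g * h) u := by
          rw [map_mul, Equiv.Perm.mul_apply, h2' u hu hw,
            h1' _ (by rw [F.lev_act]; exact hu) (hfix h hh u hu hw), map_mul,
            Equiv.Perm.mul_apply]
        have e2 : F.act (((b * h⁻¹ * b⁻¹) * h) * ((a * g⁻¹ * a⁻¹) * g)) u = F.act (h * g) u := by
          rw [map_mul, Equiv.Perm.mul_apply, h1' u hu hw,
            h2' _ (by rw [F.lev_act]; exact hu) (hfix g hg u hu hw), map_mul,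
            Equiv.Perm.mul_apply]
        rw [← e1, ← e2, hcomm]
      · have hh' := F.R_supp w h hh u hu hw
        have hg' := F.R_supp w g hg u hu hw
        rw [map_mul, map_mul, Equiv.Perm.mul_apply, Equiv.Perm.mul_apply, hh', hg', hh']
    have h4 := hcmp (F.act (h * g)⁻¹ u) (by rw [F.lev_act]; exact hu)
    rw [map_mul, Equiv.Perm.mul_apply, h4, ← Equiv.Perm.mul_apply, ← map_mul, mul_inv_cancel,
      map_one, Equiv.Perm.one_apply]
  exact mul_inv_eq_one.mp h3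

end BF

/-- A family of pairwise commuting subgroups. -/
def PC {G I : Type} [Group G] (Q : I → Subgroup G) : Prop :=
  ∀ i j, i ≠ j → ∀ a ∈ Q i, ∀ b ∈ Q j, a * b = b * a

theorem PC.normalize {G I : Type} [Group G] {Q : I → Subgroup G} (hQ : PC Q) {h : G}
    (hh : h ∈ ⨆ i, Q i) (i : I) : ∀ a ∈ Q i, h * a * h⁻¹ ∈ Q i := by
  have hle : (⨆ i, Q i) ≤ Subgroup.normalizer (Q i : Set G) := by
    apply iSup_le
    intro j
    by_cases hij : j = i
    · subst hij; exact Subgroup.le_normalizer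
    · intro b hb
      rw [Subgroup.mem_normalizer_iff]
      intro a
      constructor
      · intro ha
        have := hQ j i hij b hb a ha
        rw [this, mul_inv_cancel_right]; exact ha
      · intro ha
        have := hQ j i hij b⁻¹ ((Q j).inv_mem hb) _ ha
        have h2 : b⁻¹ * (b * a * b⁻¹) = a * b⁻¹ := by group
        rw [h2] at this
        have h3 : a = b * a * b⁻¹ := by
          have := congrArg (· * b) this
          simpa [mul_assoc] using this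
        rw [h3]; exact ha
  intro a ha
  exact (Subgroup.mem_normalizer_iff.mp (hle hh) a).mp ha

/-- Splitting an element of the join of a commuting family. -/
theorem PC.split {G I : Type} [Group G] {Q : I → Subgroup G} (hQ : PC Q) (i : I) {h : G}
    (hh : h ∈ ⨆ i, Q i) : ∃ a ∈ Q i, ∃ b ∈ ⨆ j : {j // j ≠ i}, Q j, h = a * b ∧ a * b = b * a := by
  have hC : ∀ b ∈ ⨆ j : {j // j ≠ i}, Q j, ∀ a ∈ Q i, a * b = b * a := by
    intro b hb
    have hle : (⨆ j : {j // j ≠ i}, Q j) ≤ Subgroup.centralizer (Q i : Set G) := by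
      apply iSup_le
      rintro ⟨j, hj⟩ b hb
      rw [Subgroup.mem_centralizer_iff]
      intro a ha
      exact (hQ j i hj b hb a ha).symm
    intro a ha
    exact Subgroup.mem_centralizer_iff.mp (hle hb) a ha
  have hle : (⨆ i, Q i) ≤ Q i ⊔ ⨆ j : {j // j ≠ i}, Q j := by
    apply iSup_le
    intro j
    by_cases hij : j = i
    · subst hij; exact le_sup_left
    · exact le_trans (le_iSup (fun j : {j // j ≠ i} => Q j) ⟨j, hij⟩) le_sup_right
  have h1 := hle hh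
  rw [← Subgroup.closure_eq (Q i), ← Subgroup.closure_eq (⨆ j : {j // j ≠ i}, Q j),
    ← Subgroup.closure_union] at h1
  refine Subgroup.closure_induction (p := fun h _ => ∃ a ∈ Q i, ∃ b ∈ ⨆ j : {j // j ≠ i}, Q j,
    h = a * b ∧ a * b = b * a) ?_ ?_ ?_ ?_ h1
  · rintro x (hx | hx)
    · exact ⟨x, hx, 1, one_mem _, by simp, by simp⟩
    · exact ⟨1, one_mem _, x, hx, by simp, by simp⟩
  · exact ⟨1, one_mem _, 1, one_mem _, by simp, by simp⟩
  · rintro x y - - ⟨a, ha, b, hb, rfl, hab⟩ ⟨a', ha', b', hb', rfl, hab'⟩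
    refine ⟨a * a', mul_mem ha ha', b * b', mul_mem hb hb', ?_, ?_⟩
    · have := hC b hb a' ha'
      calc a * b * (a' * b') = a * (b * a') * b' := by group
        _ = a * (a' * b) * b' := by rw [this]
        _ = _ := by group
    · exact hC _ (mul_mem hb hb') _ (mul_mem ha ha')
  · rintro x - ⟨a, ha, b, hb, rfl, hab⟩
    refine ⟨a⁻¹, inv_mem ha, b⁻¹, inv_mem hb, ?_, ?_⟩
    · rw [hab, mul_inv_rev]
    · exact hC _ (inv_mem hb) _ (inv_mem ha)

namespace BF

variable {G V : Type} [Group G] (F : BF G V)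

/-- `w` is moved by `Q`. -/
def Mv (Q : Subgroup G) (w : V) : Prop := ∃ g ∈ Q, F.act g w ≠ w

theorem Mv.desc {Q : Subgroup G} {w u : V} (h : F.lev w ≤ F.lev u)
    (hu : F.anc (F.lev w) u = w) (hQ : F.Mv Q w) : F.Mv Q u := by
  obtain ⟨g, hg, hgw⟩ := hQ
  exact ⟨g, hg, F.act_moves h hu hgw⟩

theorem Mv.mono {Q Q' : Subgroup G} {w : V} (h : Q ≤ Q') (hQ : F.Mv Q w) : F.Mv Q' w := by
  obtain ⟨g, hg, hgw⟩ := hQ
  exact ⟨g, h hg, hgw⟩

theorem not_mv_iSup {I : Type} {Q : I → Subgroup G} {w : V} (h : ∀ i, ¬ F.Mv (Q i) w) :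
    ¬ F.Mv (⨆ i, Q i) w := by
  rintro ⟨g, hg, hgw⟩
  have hle : (⨆ i, Q i) ≤ (MulAction.stabilizer (Equiv.Perm V) w).comap F.act := by
    apply iSup_le
    intro i g hg
    rw [Subgroup.mem_comap, MulAction.mem_stabilizer_iff]
    by_contra hne
    exact h i ⟨g, hg, hne⟩
  have := hle hg
  rw [Subgroup.mem_comap, MulAction.mem_stabilizer_iff] at this
  exact hgw this

/-- The support map of a commuting family. -/
theorem exists_pi {I : Type} {Q : I → Subgroup G} (hQ : PC Q) (l0 : ℕ)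
    (hR : ∀ w, F.lev w = l0 → F.R w ≤ ⨆ i, Q i) :
    ∃ l1, l0 ≤ l1 ∧ ∀ w, l1 ≤ F.lev w → ∃! i, F.Mv (Q i) w := by
  obtain ⟨l1, hl1, h1⟩ := F.R_moves l0
  refine ⟨l1, hl1, ?_⟩
  intro w hw
  have hR' : F.R w ≤ ⨆ i, Q i := by
    have h2 : F.lev (F.anc l0 w) = l0 := F.lev_anc l0 w (hl1.trans hw)
    refine (F.R_mono (F.anc l0 w) w ?_ ?_).trans (hR _ h2)
    · rw [h2]; exact hl1.trans hw
    · rw [h2]
  have hex : ∃ i, F.Mv (Q i) w := by
    by_contra hne
    push Not at hne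
    have := F.not_mv_iSup hne
    apply this
    obtain ⟨g, hg, hgw⟩ := h1 w hw
    exact ⟨g, hR _ (F.lev_anc l0 w (hl1.trans hw)) hg, hgw⟩
  obtain ⟨i, hi⟩ := hex
  refine ⟨i, hi, ?_⟩
  intro j hj
  by_contra hne
  obtain ⟨a, ha, haw⟩ := hi
  obtain ⟨b, hb, hbw⟩ := hj
  exact F.disj (Q j) (Q i) (hQ j i hne) w
    (fun h hh a ha => hQ.normalize (hR' hh) j a ha)
    (fun h hh a ha => hQ.normalize (hR' hh) i a ha) hb ha hbw haw

/-- The rigid stabiliser of a vertex whose descendants are all moved by one member of the family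
is contained in that member. -/
theorem R_le_of_const {I : Type} {Q : I → Subgroup G} (hQ : PC Q) (l1 : ℕ)
    (hπ : ∀ w, l1 ≤ F.lev w → ∃! i, F.Mv (Q i) w) (v : V) (i : I)
    (hv : F.R v ≤ ⨆ i, Q i)
    (hc : ∀ w, l1 ≤ F.lev w → F.lev v ≤ F.lev w → F.anc (F.lev v) w = v → F.Mv (Q i) w) :
    F.R v ≤ Q i := by
  intro h hh
  obtain ⟨a, ha, b, hb, rfl, hab⟩ := hQ.split i (hv hh)
  suffices hb1 : b = 1 by rw [hb1, mul_one]; exact ha
  apply F.faithful b (max l1 (F.lev v))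
  intro u hu
  have hu1 : l1 ≤ F.lev u := (le_max_left _ _).trans hu
  have hu2 : F.lev v ≤ F.lev u := (le_max_right _ _).trans hu
  by_cases hi : F.Mv (Q i) u
  · -- nobody else moves `u`
    by_contra hne
    have h1 : ¬ F.Mv (⨆ j : {j // j ≠ i}, Q j) u := by
      apply F.not_mv_iSup
      rintro ⟨j, hj⟩ hmv
      exact hj ((hπ u hu1).unique hmv hi)
    exact h1 ⟨b, hb, hne⟩
  · have h1 : F.anc (F.lev v) u ≠ v := fun h1 => hi (hc u hu1 hu2 h1)
    have h2 : F.act (a * b) u = u := F.R_supp v _ hh u hu2 h1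
    have h3 : F.act a u = u := by
      by_contra hne
      exact hi ⟨a, ha, hne⟩
    rw [hab, map_mul, Equiv.Perm.mul_apply, h3] at h2
    exact h2

theorem R_le_of_mv {I : Type} {Q : I → Subgroup G} (hQ : PC Q) (l1 : ℕ)
    (hπ : ∀ w, l1 ≤ F.lev w → ∃! i, F.Mv (Q i) w) (v : V) (_ : l1 ≤ F.lev v)
    (hv : F.R v ≤ ⨆ i, Q i) (i : I) (hi : F.Mv (Q i) v) : F.R v ≤ Q i :=
  F.R_le_of_const hQ l1 hπ v i hv fun _ _ h2 h3 => hi.desc F h2 h3

end BF

end Pool.Agent.Q24.RB
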