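import Pool.Agent.Q24.RB.Forest

/-! Restriction to large subgroups, powers, and the Krull-Schmidt type statements. -/

namespace Pool.Agent.Q24.RB

namespace BF

variable {G V : Type} [Group G] (F : BF G V)

theorem R_le_of_level {l0 : ℕ} {A : Subgroup G} (hA : ∀ w, F.lev w = l0 → F.R w ≤ A) {w : V}
    (hw : l0 ≤ F.lev w) : F.R w ≤ A := by
  have h2 : F.lev (F.anc l0 w) = l0 := F.lev_anc l0 w hw
  refine (F.R_mono (F.anc l0 w) w ?_ ?_).trans (hA _ h2)
  · rw [h2]; exact hw
  · rw [h2]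

/-- Restriction to a subgroup containing all `R w` for `w` of some level. -/
def restrict (A : Subgroup G) (l0 : ℕ) (hA : ∀ w, F.lev w = l0 → F.R w ≤ A) : BF A V where
  act := F.act.comp A.subtype
  lev := F.lev
  anc := F.anc
  lev_anc := F.lev_anc
  anc_lev := F.anc_lev
  anc_anc := F.anc_anc
  fin := F.fin
  desc := F.desc
  lev_act g v := F.lev_act g v
  anc_act g := F.anc_act g
  R v := (F.R v).subgroupOf A
  R_supp v g hg := F.R_supp v g hg
  R_mono v w h1 h2 := fun _ hg => F.R_mono v w h1 h2 hg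
  R_conj g v h hh := F.R_conj g v h hh
  R_nonab v := by
    obtain ⟨w, hw1, hw2⟩ := F.desc v (max l0 (F.lev v)) (le_max_right _ _)
    obtain ⟨g, hg, h, hh, hgh⟩ := F.R_nonab w
    have h1 : F.R w ≤ A := F.R_le_of_level hA (by rw [hw1]; exact le_max_left _ _)
    have h2 : F.R w ≤ F.R v := F.R_mono v w (by rw [hw1]; exact le_max_right _ _) hw2
    exact ⟨⟨g, h1 hg⟩, h2 hg, ⟨h, h1 hh⟩, h2 hh, fun h => hgh (congrArg Subtype.val h)⟩
  R_moves l := by
    obtain ⟨l1, hl1, h1⟩ := F.R_moves (max l l0)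
    refine ⟨l1, (le_max_left _ _).trans hl1, ?_⟩
    intro w hw
    obtain ⟨g, hg, hgw⟩ := h1 w hw
    have h3 : max l l0 ≤ F.lev w := hl1.trans hw
    have h4 : F.lev (F.anc (max l l0) w) = max l l0 := F.lev_anc _ w h3
    have h5 : F.R (F.anc (max l l0) w) ≤ A := F.R_le_of_level hA (by rw [h4]; exact le_max_right _ _)
    have h6 : F.R (F.anc (max l l0) w) ≤ F.R (F.anc l w) := by
      have h7 : F.lev (F.anc l w) = l := F.lev_anc l w ((le_max_left _ _).trans h3)
      apply F.R_mono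
      · rw [h7, h4]; exact le_max_left _ _
      · rw [h7, F.anc_anc _ _ _ (le_max_left _ _) h3]
    exact ⟨⟨g, h5 hg⟩, h6 hg, hgw⟩
  faithful g l h := Subtype.ext (F.faithful g l h)

/-- The action of a power. -/
def powAct (n : ℕ) : (Fin n → G) →* Equiv.Perm (V × Fin n) where
  toFun := fun g =>
    { toFun := fun w => (F.act (g w.2) w.1, w.2)
      invFun := fun w => (F.act (g w.2)⁻¹ w.1, w.2)
      left_inv := fun w => by simp
      right_inv := fun w => by simp }
  map_one' := by ext w <;> simp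
  map_mul' := fun g h => by ext w <;> simp

theorem powAct_apply (n : ℕ) (g : Fin n → G) (w : V × Fin n) :
    F.powAct n g w = (F.act (g w.2) w.1, w.2) := rfl

/-- The power of a forest action. -/
def pow (n : ℕ) : BF (Fin n → G) (V × Fin n) where
  act := F.powAct n
  lev w := F.lev w.1
  anc k w := (F.anc k w.1, w.2)
  lev_anc k w h := F.lev_anc k w.1 h
  anc_lev w := by rw [F.anc_lev]
  anc_anc j k w h1 h2 := by
    show (F.anc j (F.anc k w.1), w.2) = _
    rw [F.anc_anc j k w.1 h1 h2]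
  fin l := by
    refine ((F.fin l).prod (Set.finite_univ (α := Fin n))).subset ?_
    intro w hw
    exact ⟨hw, Set.mem_univ _⟩
  desc w l h := by
    obtain ⟨u, hu1, hu2⟩ := F.desc w.1 l h
    exact ⟨(u, w.2), hu1, Prod.ext hu2 rfl⟩
  lev_act g w := F.lev_act _ _
  anc_act g k w h := Prod.ext (F.anc_act _ k w.1 h) rfl
  R w :=
    { carrier := {g | g w.2 ∈ F.R w.1 ∧ ∀ j, j ≠ w.2 → g j = 1}
      one_mem' := ⟨one_mem _, fun _ _ => rfl⟩
      mul_mem' := fun {a b} ha hb => ⟨mul_mem ha.1 hb.1, fun j hj => by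
        rw [Pi.mul_apply, ha.2 j hj, hb.2 j hj, one_mul]⟩
      inv_mem' := fun {a} ha => ⟨inv_mem ha.1, fun j hj => by
        rw [Pi.inv_apply, ha.2 j hj, inv_one]⟩ }
  R_supp v g hg w h1 h2 := by
    obtain ⟨hg1, hg2⟩ := hg
    rw [powAct_apply]
    by_cases hvw : w.2 = v.2
    · refine Prod.ext ?_ rfl
      show F.act (g w.2) w.1 = w.1
      rw [hvw]
      refine F.R_supp v.1 _ hg1 w.1 h1 ?_
      intro h3
      exact h2 (Prod.ext h3 hvw)
    · refine Prod.ext ?_ rfl
      show F.act (g w.2) w.1 = w.1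
      rw [hg2 w.2 hvw, map_one, Equiv.Perm.one_apply]
  R_mono v w h1 h2 := by
    rintro g ⟨hg1, hg2⟩
    have h2' : (F.anc (F.lev v.1) w.1, w.2) = v := h2
    have h3 : w.2 = v.2 := (Prod.ext_iff.mp h2').2
    have h4 : F.anc (F.lev v.1) w.1 = v.1 := (Prod.ext_iff.mp h2').1
    constructor
    · rw [← h3]
      exact F.R_mono v.1 w.1 h1 h4 hg1
    · intro j hj
      exact hg2 j (by rw [h3]; exact hj)
  R_conj g v h hh := by
    obtain ⟨hh1, hh2⟩ := hh
    constructor
    · exact F.R_conj (g v.2) v.1 (h v.2) hh1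
    · intro j hj
      show g j * h j * (g j)⁻¹ = 1
      rw [hh2 j hj, mul_one, mul_inv_cancel]
  R_nonab v := by
    obtain ⟨g, hg, h, hh, hgh⟩ := F.R_nonab v.1
    refine ⟨Pi.mulSingle v.2 g, ⟨?_, ?_⟩, Pi.mulSingle v.2 h, ⟨?_, ?_⟩, ?_⟩
    · rw [Pi.mulSingle_eq_same]; exact hg
    · intro j hj; rw [Pi.mulSingle_eq_of_ne hj]
    · rw [Pi.mulSingle_eq_same]; exact hh
    · intro j hj; rw [Pi.mulSingle_eq_of_ne hj]
    · intro h
      apply hgh
      have := congrFun h v.2
      simpa using this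
  R_moves l := by
    obtain ⟨l1, hl1, h1⟩ := F.R_moves l
    refine ⟨l1, hl1, ?_⟩
    intro w hw
    obtain ⟨g, hg, hgw⟩ := h1 w.1 hw
    refine ⟨Pi.mulSingle w.2 g, ⟨?_, ?_⟩, ?_⟩
    · rw [Pi.mulSingle_eq_same]; exact hg
    · intro j hj; rw [Pi.mulSingle_eq_of_ne hj]
    · intro h
      apply hgw
      rw [powAct_apply] at h
      have := congrArg Prod.fst h
      simpa using this
  faithful g l h := by
    ext i
    apply F.faithful (g i) l
    intro w hw
    exact congrArg Prod.fst (h (w, i) hw)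

/-- The vertices of level `l`. -/
def L (l : ℕ) : Type := {v : V // F.lev v = l}

instance (l : ℕ) : Finite (F.L l) := (F.fin l).to_subtype

theorem R_comm {v w : V} (hvw : F.lev v = F.lev w) (hne : v ≠ w) {a b : G} (ha : a ∈ F.R v)
    (hb : b ∈ F.R w) : a * b = b * a := by
  have hcmp : ∀ u, F.lev v ≤ F.lev u → F.act (a * b) u = F.act (b * a) u := by
    intro u hu
    rw [map_mul, map_mul, Equiv.Perm.mul_apply, Equiv.Perm.mul_apply]
    by_cases h1 : F.anc (F.lev v) u = v
    · have h2 : F.act b u = u := F.R_supp w b hb u (hvw ▸ hu) (by rw [← hvw, h1]; exact hne)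
      have h3 : F.act b (F.act a u) = F.act a u := by
        refine F.R_supp w b hb _ (by rw [F.lev_act, ← hvw]; exact hu) ?_
        rw [← hvw, F.anc_act a _ _ hu, h1, F.R_fix ha]; exact hne
      rw [h2, h3]
    · have h2 : F.act a u = u := F.R_supp v a ha u hu h1
      by_cases h3 : F.anc (F.lev v) u = w
      · have h4 : F.act a (F.act b u) = F.act b u := by
          refine F.R_supp v a ha _ (by rw [F.lev_act]; exact hu) ?_
          rw [F.anc_act b _ _ hu, h3, F.R_fix hb]; exact hne.symm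
        rw [h2, h4]
      · have h4 : F.act b u = u := F.R_supp w b hb u (hvw ▸ hu) (by rw [← hvw]; exact h3)
        rw [h4, h2, h4]
  have h3 : (a * b) * (b * a)⁻¹ = 1 := by
    apply F.faithful _ (F.lev v)
    intro u hu
    have h4 := hcmp (F.act (b * a)⁻¹ u) (by rw [F.lev_act]; exact hu)
    rw [map_mul, Equiv.Perm.mul_apply, h4, ← Equiv.Perm.mul_apply, ← map_mul, mul_inv_cancel,
      map_one, Equiv.Perm.one_apply]
  exact mul_inv_eq_one.mp h3

theorem R_PC (m : ℕ) : PC (fun v : F.L m => F.R v.1) := by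
  intro v w hne a ha b hb
  exact F.R_comm (v.2.trans w.2.symm) (fun h => hne (Subtype.ext h)) ha hb

theorem eq_of_R_le {v w : V} (hvw : F.lev v = F.lev w) (h : F.R v ≤ F.R w) : v = w := by
  by_contra hne
  obtain ⟨g, hg, k, hk, hgk⟩ := F.R_nonab v
  exact hgk (F.R_comm hvw hne hg (h hk))

/-- The rigid stabiliser of `v` is transitive on the descendants of `v` of each level. -/
def TR (v : V) : Prop := ∀ u u', F.lev v ≤ F.lev u → F.lev u = F.lev u' →
  F.anc (F.lev v) u = v → F.anc (F.lev v) u' = v → ∃ g ∈ F.R v, F.act g u = u'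

/-- Krull-Schmidt: a rigid stabiliser which is transitive on its subtree lies in one member of
every commuting family which generates everything. -/
theorem ks {I : Type} {Q : I → Subgroup G} (hQ : PC Q) (htop : (⨆ i, Q i) = ⊤) {v : V}
    (hv : F.TR v) : ∃! i, F.R v ≤ Q i := by
  obtain ⟨l1, -, hπ⟩ := F.exists_pi hQ 0 (fun w _ => by rw [htop]; exact le_top)
  obtain ⟨u0, hu0, hu0'⟩ := F.desc v (max l1 (F.lev v)) (le_max_right _ _)
  obtain ⟨i, hi, -⟩ := hπ u0 (by rw [hu0]; exact le_max_left _ _)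
  refine ⟨i, ?_, ?_⟩
  · apply F.R_le_of_const hQ l1 hπ v i (by rw [htop]; exact le_top)
    intro w hw1 hw2 hw3
    have hM : max l1 (F.lev v) ≤ F.lev w := max_le hw1 hw2
    have hl : F.lev (F.anc (max l1 (F.lev v)) w) = max l1 (F.lev v) := F.lev_anc _ w hM
    obtain ⟨g, hg, hgu⟩ := hv u0 (F.anc (max l1 (F.lev v)) w) (by rw [hu0]; exact le_max_right _ _)
      (by rw [hu0, hl]) hu0' (by rw [F.anc_anc _ _ _ (le_max_right _ _) hM, hw3])
    obtain ⟨x, hx, hxu⟩ := hi
    have h1 : F.Mv (Q i) (F.anc (max l1 (F.lev v)) w) := by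
      refine ⟨g * x * g⁻¹, hQ.normalize (by rw [htop]; trivial) i x hx, ?_⟩
      rw [← hgu, ← Equiv.Perm.mul_apply, ← map_mul, inv_mul_cancel_right, map_mul,
        Equiv.Perm.mul_apply]
      exact fun h => hxu ((F.act g).injective h)
    exact h1.desc F (by rw [hl]; exact hM) (by rw [hl])
  · intro j hj
    by_contra hne
    have hle : F.R v ≤ Q i := by
      apply F.R_le_of_const hQ l1 hπ v i (by rw [htop]; exact le_top)
      intro w hw1 hw2 hw3
      have hM : max l1 (F.lev v) ≤ F.lev w := max_le hw1 hw2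
      have hl : F.lev (F.anc (max l1 (F.lev v)) w) = max l1 (F.lev v) := F.lev_anc _ w hM
      obtain ⟨g, hg, hgu⟩ := hv u0 (F.anc (max l1 (F.lev v)) w)
        (by rw [hu0]; exact le_max_right _ _)
        (by rw [hu0, hl]) hu0' (by rw [F.anc_anc _ _ _ (le_max_right _ _) hM, hw3])
      obtain ⟨x, hx, hxu⟩ := hi
      have h1 : F.Mv (Q i) (F.anc (max l1 (F.lev v)) w) := by
        refine ⟨g * x * g⁻¹, hQ.normalize (by rw [htop]; trivial) i x hx, ?_⟩
        rw [← hgu, ← Equiv.Perm.mul_apply, ← map_mul, inv_mul_cancel_right, map_mul,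
          Equiv.Perm.mul_apply]
        exact fun h => hxu ((F.act g).injective h)
      exact h1.desc F (by rw [hl]; exact hM) (by rw [hl])
    obtain ⟨g, hg, k, hk, hgk⟩ := F.R_nonab v
    exact hgk (hQ j i hne g (hj hg) k (hle hk))

end BF

end Pool.Agent.Q24.RB
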