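import Pool.Agent.Q24.RB.Forest2

/-! Counting: members of the two decompositions. -/

namespace Pool.Agent.Q24.RB

/-- The subgroup of a power supported at one coordinate. -/
def sing {K : Type} [Group K] {n : ℕ} (j : Fin n) : Subgroup (Fin n → K) where
  carrier := {x | ∀ i, i ≠ j → x i = 1}
  one_mem' := fun _ _ => rfl
  mul_mem' := fun {a b} ha hb i hi => by rw [Pi.mul_apply, ha i hi, hb i hi, one_mul]
  inv_mem' := fun {a} ha i hi => by rw [Pi.inv_apply, ha i hi, inv_one]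

theorem sing_PC {K : Type} [Group K] {n : ℕ} : PC (fun j : Fin n => (sing j : Subgroup (Fin n → K))) := by
  intro i j hij a ha b hb
  ext k
  rw [Pi.mul_apply, Pi.mul_apply]
  by_cases hk : k = i
  · have : k ≠ j := fun h => hij (hk.symm.trans h)
    rw [hb k this, mul_one, one_mul]
  · rw [ha k hk, mul_one, one_mul]

theorem sing_iSup {K : Type} [Group K] {n : ℕ} :
    (⨆ j : Fin n, (sing j : Subgroup (Fin n → K))) = ⊤ := by
  rw [eq_top_iff]
  intro x _
  apply Subgroup.pi_mem_of_mulSingle_mem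
  intro i
  refine (le_iSup (fun j : Fin n => (sing j : Subgroup (Fin n → K))) i) ?_
  intro j hj
  exact Pi.mulSingle_eq_of_ne hj _

theorem PC.map {G H I : Type} [Group G] [Group H] {Q : I → Subgroup G} (hQ : PC Q) (f : G →* H) :
    PC (fun i => (Q i).map f) := by
  rintro i j hij _ ⟨a, ha, rfl⟩ _ ⟨b, hb, rfl⟩
  rw [← map_mul, ← map_mul, hQ i j hij a ha b hb]

theorem iSup_map_top {G H I : Type} [Group G] [Group H] {Q : I → Subgroup G}
    (hQ : (⨆ i, Q i) = ⊤) (f : G ≃* H) : (⨆ i, (Q i).map f.toMonoidHom) = ⊤ := by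
  rw [← Subgroup.map_iSup, hQ, ← MonoidHom.range_eq_map]
  exact MonoidHom.range_eq_top.mpr f.surjective

/-- Swapping two coordinates. -/
def swapIso (K : Type) [Group K] {n : ℕ} (i j : Fin n) : (Fin n → K) ≃* (Fin n → K) where
  toFun x := fun k => x (Equiv.swap i j k)
  invFun x := fun k => x (Equiv.swap i j k)
  left_inv x := by ext k; simp
  right_inv x := by ext k; simp
  map_mul' x y := rfl

theorem card_eq_mul_of_fibres {α β : Type} [Finite α] [Finite β] (f : α → β) (c : ℕ)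
    (h : ∀ b, Nat.card {a // f a = b} = c) : Nat.card α = c * Nat.card β := by
  have : Fintype β := Fintype.ofFinite β
  have : Fintype α := Fintype.ofFinite α
  rw [← Nat.card_congr (Equiv.sigmaFiberEquiv f), Nat.card_sigma]
  simp only [h, Finset.sum_const, smul_eq_mul]
  rw [mul_comm, Nat.card_eq_fintype_card (α := β), Finset.card_univ]

namespace BF

variable {A V : Type} [Group A] (F : BF A V)

/-- If `A` is a direct power, its index set of rigid stabilisers splits evenly. -/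
theorem ks_card (m : ℕ) (hTR : ∀ v, F.lev v = m → F.TR v)
    (htop : (⨆ v : F.L m, F.R v.1) = ⊤) {n : ℕ} {K : Type} [Group K] (ψ : A ≃* (Fin n → K)) :
    ∃ κ : F.L m → Fin n, (∀ v j, F.R v.1 ≤ (sing j : Subgroup (Fin n → K)).map ψ.symm.toMonoidHom ↔
        κ v = j) ∧
      ∀ i j, Nat.card {v // κ v = i} = Nat.card {v // κ v = j} := by
  have hPC : PC (fun j : Fin n => (sing j : Subgroup (Fin n → K)).map ψ.symm.toMonoidHom) :=
    sing_PC.map _
  have htop' : (⨆ j : Fin n, (sing j : Subgroup (Fin n → K)).map ψ.symm.toMonoidHom) = ⊤ :=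
    iSup_map_top sing_iSup ψ.symm
  have hex : ∀ v : F.L m, ∃! j : Fin n,
      F.R v.1 ≤ (sing j : Subgroup (Fin n → K)).map ψ.symm.toMonoidHom :=
    fun v => F.ks hPC htop' (hTR v.1 v.2)
  choose κ hκ1 hκ2 using hex
  have hκ : ∀ v j, F.R v.1 ≤ (sing j : Subgroup (Fin n → K)).map ψ.symm.toMonoidHom ↔
        κ v = j := by
    intro v j
    constructor
    · intro h; exact (hκ2 v j h).symm
    · rintro rfl; exact hκ1 v
  refine ⟨κ, hκ, ?_⟩
  have hle : ∀ i j, Nat.card {v // κ v = i} ≤ Nat.card {v // κ v = j} := by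
    intro i j
    set θ : A ≃* A := (ψ.trans (swapIso K i j)).trans ψ.symm with hθ
    have hθθ : ∀ a, θ (θ a) = a := by
      intro a
      rw [hθ]
      simp only [MulEquiv.trans_apply, MulEquiv.apply_symm_apply]
      have : swapIso K i j (swapIso K i j (ψ a)) = ψ a := (swapIso K i j).left_inv (ψ a)
      rw [this, MulEquiv.symm_apply_apply]
    have hex : ∀ u : F.L m, ∃! w : F.L m, F.R u.1 ≤ (F.R w.1).map θ.toMonoidHom :=
      fun u => F.ks ((F.R_PC m).map θ.toMonoidHom) (iSup_map_top htop θ) (hTR u.1 u.2)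
    choose σ hσ1 hσ2 using hex
    have hσσ : ∀ u, σ (σ u) = u := by
      intro u
      apply Subtype.ext
      symm
      apply F.eq_of_R_le (u.2.trans (σ (σ u)).2.symm)
      intro g hg
      obtain ⟨g1, hg1, rfl⟩ := hσ1 u hg
      obtain ⟨g2, hg2, rfl⟩ := hσ1 (σ u) hg1
      show θ (θ g2) ∈ _
      rw [hθθ]
      exact hg2
    have hkey : ∀ u, κ (σ u) = i → κ u = j := by
      intro u hu
      rw [← hκ]
      intro g hg
      obtain ⟨g1, hg1, rfl⟩ := hσ1 u hg
      obtain ⟨x, hx, rfl⟩ := (hκ (σ u) i).mpr hu hg1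
      refine ⟨swapIso K i j x, ?_, ?_⟩
      · intro k hk
        show x (Equiv.swap i j k) = 1
        apply hx
        intro h
        apply hk
        have h3 := congrArg (Equiv.swap i j) h
        rwa [Equiv.swap_apply_self, Equiv.swap_apply_left] at h3
      · show ψ.symm (swapIso K i j x) = ψ.symm (swapIso K i j (ψ (ψ.symm x)))
        rw [MulEquiv.apply_symm_apply]
    have : Finite {v // κ v = j} := Subtype.finite
    refine Nat.card_le_card_of_injective
      (fun v : {v // κ v = i} => (⟨σ v.1, hkey _ (by rw [hσσ]; exact v.2)⟩ : {v // κ v = j})) ?_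
    intro v w h
    have h1 : σ v.1 = σ w.1 := congrArg Subtype.val h
    have h2 := congrArg σ h1
    rw [hσσ, hσσ] at h2
    exact Subtype.ext h2
  intro i j
  exact le_antisymm (hle i j) (hle j i)

theorem exists_level_moved {Q : Subgroup A} (hQ : ∃ g ∈ Q, g ≠ 1) :
    ∃ k, ∀ l, k ≤ l → ∃ u, F.lev u = l ∧ F.Mv Q u := by
  obtain ⟨g, hg, hg1⟩ := hQ
  have : ∃ u, F.act g u ≠ u := by
    by_contra h
    push Not at h
    exact hg1 (F.faithful g 0 (fun w _ => h w))
  obtain ⟨u, hu⟩ := this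
  refine ⟨F.lev u, fun l hl => ?_⟩
  obtain ⟨w, hw1, hw2⟩ := F.desc u l hl
  exact ⟨w, hw1, Mv.desc F (by rw [hw1]; exact hl) hw2 ⟨g, hg, hu⟩⟩

/-- The number of vertices in the support of a transitive orbit of factors divides the number of
vertices below the orbit. -/
theorem dual {B V' : Type} [Group B] (F' : BF B V') (φ : A ≃* B) (m l1 : ℕ)
    (hR : ∀ w, l1 ≤ F'.lev w → F'.R w ≤ ⨆ v : F.L m, (F.R v.1).map φ.toMonoidHom)
    (hπ : ∀ w, l1 ≤ F'.lev w → ∃! v : F.L m, F'.Mv ((F.R v.1).map φ.toMonoidHom) w)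
    (l : ℕ) (hl : l1 ≤ l)
    (hB : ∃ l0, ∀ u, F.lev u = l0 → F.R u ≤ ⨆ w : F'.L l, (F'.R w.1).map φ.symm.toMonoidHom) :
    ∃ l2, ∀ l', l2 ≤ l' → ∀ O : Set V, (∀ v ∈ O, ∀ g, F.act g v ∈ O) →
      (∀ u u', F.lev u = l' → F.lev u' = l' → F.anc m u ∈ O → F.anc m u' ∈ O →
        ∃ g, F.act g u = u') →
      Nat.card {w : F'.L l // ∃ v : F.L m, v.1 ∈ O ∧ F'.Mv ((F.R v.1).map φ.toMonoidHom) w.1} ∣
        Nat.card {u : F.L l' // F.anc m u.1 ∈ O} := by
  obtain ⟨l0, hl0⟩ := hB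
  have hPC' : PC (fun w : F'.L l => (F'.R w.1).map φ.symm.toMonoidHom) :=
    (F'.R_PC l).map _
  obtain ⟨l3, -, hρ⟩ := F.exists_pi hPC' l0 hl0
  -- each member moves something at every deep level
  have hne : ∀ w : F'.L l, ∃ k, ∀ l', k ≤ l' → ∃ u, F.lev u = l' ∧
      F.Mv ((F'.R w.1).map φ.symm.toMonoidHom) u := by
    intro w
    apply F.exists_level_moved
    obtain ⟨g, hg, h, -, hgh⟩ := F'.R_nonab w.1
    refine ⟨φ.symm g, ⟨g, hg, rfl⟩, ?_⟩
    intro h1
    have h2 : g = 1 := by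
      have := congrArg φ h1
      simpa using this
    exact hgh (by rw [h2, one_mul, mul_one])
  choose k hk using hne
  obtain ⟨k0, hk0⟩ : ∃ k0, ∀ w, k w ≤ k0 := by
    have : Fintype (F'.L l) := Fintype.ofFinite _
    exact ⟨Finset.univ.sup k, fun w => Finset.le_sup (Finset.mem_univ w)⟩
  refine ⟨max (max l3 k0) m, ?_⟩
  intro l' hl' O hO htr
  have hl3 : l3 ≤ l' := (le_max_left _ _).trans ((le_max_left _ _).trans hl')
  have hlk : k0 ≤ l' := (le_max_right _ _).trans ((le_max_left _ _).trans hl')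
  have hlm : m ≤ l' := (le_max_right _ _).trans hl'
  choose ρ hρ1 hρ2 using fun u : F.L l' => hρ u.1 (by rw [u.2]; exact hl3)
  -- `π (ρ u) = anc m u`
  have hπρ : ∀ u : F.L l', ∀ v : F.L m, F'.Mv ((F.R v.1).map φ.toMonoidHom) (ρ u).1 →
      F.anc m u.1 = v.1 := by
    intro u v hv
    have h1 : F'.R (ρ u).1 ≤ (F.R v.1).map φ.toMonoidHom := by
      apply F'.R_le_of_mv (Q := fun v : F.L m => (F.R v.1).map φ.toMonoidHom)
        ((F.R_PC m).map _) l1 hπ _ (by rw [(ρ u).2]; exact hl) _ v hv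
      exact hR _ (by rw [(ρ u).2]; exact hl)
    obtain ⟨_, ⟨g, hg, rfl⟩, hgu⟩ := hρ1 u
    obtain ⟨h, hh, rfl⟩ := h1 hg
    have h2 : φ.symm.toMonoidHom (φ.toMonoidHom h) = h := φ.symm_apply_apply h
    rw [h2] at hgu
    by_contra hne
    apply hgu
    apply F.R_supp v.1 h hh
    · rw [v.2, u.2]; exact hlm
    · rw [v.2]; exact hne
  have hequiv : ∀ (g : A) (u : F.L l') (u' : F.L l'), F.act g u.1 = u'.1 →
      (ρ u').1 = F'.act (φ g) (ρ u).1 := by
    intro g u u' hgu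
    have hlev : F'.lev (F'.act (φ g) (ρ u).1) = l := by rw [F'.lev_act, (ρ u).2]
    have h1 : F.Mv ((F'.R (F'.act (φ g) (ρ u).1)).map φ.symm.toMonoidHom) u'.1 := by
      obtain ⟨_, ⟨h, hh, rfl⟩, hhu⟩ := hρ1 u
      refine ⟨g * φ.symm h * g⁻¹, ⟨φ g * h * (φ g)⁻¹, F'.R_conj (φ g) _ h hh, ?_⟩, ?_⟩
      · show φ.symm _ = _
        rw [map_mul, map_mul, map_inv, MulEquiv.symm_apply_apply]
      · rw [← hgu, ← Equiv.Perm.mul_apply, ← map_mul, inv_mul_cancel_right, map_mul,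
          Equiv.Perm.mul_apply]
        exact fun h => hhu ((F.act g).injective h)
    have h2 := hρ2 u' ⟨F'.act (φ g) (ρ u).1, hlev⟩ h1
    rw [← h2]
  -- the map between the two sets
  have hmem : ∀ u : {u : F.L l' // F.anc m u.1 ∈ O},
      ∃ v : F.L m, v.1 ∈ O ∧ F'.Mv ((F.R v.1).map φ.toMonoidHom) (ρ u.1).1 := by
    intro u
    obtain ⟨v, hv, -⟩ := hπ (ρ u.1).1 (by rw [(ρ u.1).2]; exact hl)
    exact ⟨v, by rw [← hπρ u.1 v hv]; exact u.2, hv⟩
  set f : {u : F.L l' // F.anc m u.1 ∈ O} →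
      {w : F'.L l // ∃ v : F.L m, v.1 ∈ O ∧ F'.Mv ((F.R v.1).map φ.toMonoidHom) w.1} :=
    fun u => ⟨ρ u.1, hmem u⟩ with hf
  -- surjectivity
  have hsurj : Function.Surjective f := by
    rintro ⟨w, v, hvO, hv⟩
    obtain ⟨u, hu1, hu2⟩ := hk w l' ((hk0 w).trans hlk)
    have h1 : ρ ⟨u, hu1⟩ = w := (hρ2 ⟨u, hu1⟩ w hu2).symm
    have h2 : F.anc m u = v.1 := hπρ ⟨u, hu1⟩ v (by rw [h1]; exact hv)
    exact ⟨⟨⟨u, hu1⟩, by rw [h2]; exact hvO⟩, Subtype.ext h1⟩
  have hfin : Finite {u : F.L l' // F.anc m u.1 ∈ O} := Subtype.finite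
  have hfin' : Finite {w : F'.L l // ∃ v : F.L m, v.1 ∈ O ∧
    F'.Mv ((F.R v.1).map φ.toMonoidHom) w.1} := Subtype.finite
  have hfib : ∀ b b', Nat.card {a // f a = b} ≤ Nat.card {a // f a = b'} := by
    intro b b'
    obtain ⟨u, hu⟩ := hsurj b
    obtain ⟨u', hu'⟩ := hsurj b'
    obtain ⟨g, hg⟩ := htr u.1.1 u'.1.1 u.1.2 u'.1.2 u.2 u'.2
    have : Finite {a // f a = b'} := Subtype.finite
    have hact : ∀ a : {u : F.L l' // F.anc m u.1 ∈ O}, F.anc m (F.act g a.1.1) ∈ O := by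
      intro a
      rw [F.anc_act g m _ (by rw [a.1.2]; exact hlm)]
      exact hO _ a.2 g
    refine Nat.card_le_card_of_injective (fun a : {a // f a = b} =>
      (⟨⟨⟨F.act g a.1.1.1, by rw [F.lev_act, a.1.1.2]⟩, hact a.1⟩, ?_⟩ : {a // f a = b'})) ?_
    · apply Subtype.ext
      apply Subtype.ext
      show (ρ ⟨F.act g a.1.1.1, _⟩).1 = b'.1.1
      rw [hequiv g a.1.1 ⟨F.act g a.1.1.1, by rw [F.lev_act, a.1.1.2]⟩ rfl]
      have h1 : (ρ a.1.1).1 = (ρ u.1).1 := by
        have h2 : f a.1 = f u := a.2.trans hu.symm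
        exact congrArg (fun x => x.1.1) h2
      rw [h1, ← hequiv g u.1 u'.1 hg, ← hu']
    · intro a a' h
      have h1 : F.act g a.1.1.1 = F.act g a'.1.1.1 := congrArg (fun x => x.1.1.1) h
      exact Subtype.ext (Subtype.ext (Subtype.ext ((F.act g).injective h1)))
  by_cases hemp : IsEmpty {w : F'.L l // ∃ v : F.L m, v.1 ∈ O ∧
    F'.Mv ((F.R v.1).map φ.toMonoidHom) w.1}
  · have : IsEmpty {u : F.L l' // F.anc m u.1 ∈ O} := ⟨fun u => hemp.false (f u)⟩
    rw [Nat.card_of_isEmpty (α := {u : F.L l' // F.anc m u.1 ∈ O})]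
    exact dvd_zero _
  · rw [not_isEmpty_iff] at hemp
    obtain ⟨b0⟩ := hemp
    have := card_eq_mul_of_fibres f (Nat.card {a // f a = b0})
      (fun b => le_antisymm (hfib b b0) (hfib b0 b))
    rw [this]
    exact dvd_mul_left _ _

end BF

end Pool.Agent.Q24.RB
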