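import Pool.Agent.Q24.RB.AutT

/-! Rigid level stabilisers which are not powers. -/

namespace Pool.Agent.Q24.RB

open Topology

variable {q : ℕ → ℕ}

theorem iSup_subgroupOf {G I : Type} [Group G] (H : I → Subgroup G) (A : Subgroup G)
    (hA : ∀ i, H i ≤ A) : (⨆ i, H i).subgroupOf A = ⨆ i, (H i).subgroupOf A := by
  apply le_antisymm
  · intro x hx
    have h1 : (⨆ i, (H i).subgroupOf A).map A.subtype = ⨆ i, H i := by
      rw [Subgroup.map_iSup]
      congr 1
      funext i
      rw [Subgroup.subgroupOf_map_subtype, inf_eq_left]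
      exact hA i
    have h2 : A.subtype x ∈ (⨆ i, (H i).subgroupOf A).map A.subtype := by
      rw [h1]; exact hx
    obtain ⟨y, hy, hyx⟩ := h2
    have : y = x := A.subtype_injective hyx
    rw [← this]; exact hy
  · apply iSup_le
    intro i x hx
    exact (le_iSup H i) hx

/-- The number of vertices of level `n` below a vertex of level `m`. -/
theorem card_below {m : ℕ} (v : Vert q m) : ∀ k, Nat.card {w : Vert q (m + k) //
    trunc (Nat.le_add_right m k) w = v} = ∏ i ∈ Finset.range k, q (m + i) := by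
  intro k
  induction k with
  | zero =>
    rw [Finset.range_zero, Finset.prod_empty]
    have : ∀ w : Vert q (m + 0), trunc (Nat.le_add_right m 0) w = w := fun w => rfl
    rw [Nat.card_eq_one_iff_unique]
    exact ⟨⟨fun a b => Subtype.ext (a.2.trans b.2.symm)⟩, ⟨⟨v, rfl⟩⟩⟩
  | succ k ih =>
    rw [Finset.prod_range_succ, ← ih]
    have hf : ∀ w : {w : Vert q (m + (k + 1)) // trunc (Nat.le_add_right m (k + 1)) w = v},
        trunc (Nat.le_add_right m k) (trunc (Nat.le_succ (m + k)) w.1) = v := fun w => w.2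
    rw [card_eq_mul_of_fibres (fun w : {w : Vert q (m + (k + 1)) //
      trunc (Nat.le_add_right m (k + 1)) w = v} => (⟨trunc (Nat.le_succ (m + k)) w.1, hf w⟩ :
        {w : Vert q (m + k) // trunc (Nat.le_add_right m k) w = v})) (q (m + k)), mul_comm]
    rintro ⟨b, hb⟩
    have e : {a : {w : Vert q (m + (k + 1)) // trunc (Nat.le_add_right m (k + 1)) w = v} //
        (⟨trunc (Nat.le_succ (m + k)) a.1, hf a⟩ :
        {w : Vert q (m + k) // trunc (Nat.le_add_right m k) w = v}) = ⟨b, hb⟩} ≃ Fin (q (m + k)) :=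
      { toFun := fun a => a.1.1 (Fin.last (m + k))
        invFun := fun c => ⟨⟨Fin.snoc (α := fun i : Fin (m + k + 1) => Fin (q i)) b c, by
            rw [← hb]
            funext i
            show Fin.snoc (α := fun i : Fin (m + k + 1) => Fin (q i)) b c
              (Fin.castSucc (Fin.castLE (Nat.le_add_right m k) i)) = _
            rw [Fin.snoc_castSucc]
            rfl⟩, by
            apply Subtype.ext
            funext i
            show Fin.snoc (α := fun i : Fin (m + k + 1) => Fin (q i)) b c (Fin.castSucc i) = b i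
            rw [Fin.snoc_castSucc]⟩
        left_inv := fun a => by
          apply Subtype.ext
          apply Subtype.ext
          funext i
          refine Fin.lastCases ?_ (fun j => ?_) i
          · show Fin.snoc (α := fun i : Fin (m + k + 1) => Fin (q i)) b _ (Fin.last (m + k)) = _
            rw [Fin.snoc_last]
            rfl
          · show Fin.snoc (α := fun i : Fin (m + k + 1) => Fin (q i)) b _ (Fin.castSucc j) = _
            rw [Fin.snoc_castSucc]
            have := congrArg Subtype.val a.2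
            exact (congrFun this j).symm
        right_inv := fun c => by
          show Fin.snoc (α := fun i : Fin (m + k + 1) => Fin (q i)) b c (Fin.last (m + k)) = c
          rw [Fin.snoc_last] }
    rw [Nat.card_congr e, Nat.card_eq_fintype_card, Fintype.card_fin]

theorem ristLevel_le (U : Subgroup (LP q)) (m : ℕ) : ristLevel U m ≤ U :=
  iSup_le fun v => rist_le U v

theorem rist_le_level (U : Subgroup (LP q)) {m : ℕ} (v : Vert q m) : rist U v ≤ ristLevel U m :=
  le_iSup (fun v : Vert q m => rist U v) v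

/-- Elements of the rigid stabiliser of a vertex fix its level. -/
theorem rist_fix_level {U : Subgroup (LP q)} {m : ℕ} {v : Vert q m} {g : LP q}
    (hg : g ∈ rist U v) : g m = 1 := by
  ext w : 1
  by_cases h : Below v w
  · obtain ⟨e1, e2⟩ := below_iff.mp h
    have h3 : w = v := e2
    subst h3
    by_contra hne
    have h1 : ¬ Below w (g m w) := by
      intro h1
      obtain ⟨e3, e4⟩ := below_iff.mp h1
      exact hne e4
    exact hne ((g m).injective (hg.2 m _ h1))
  · exact hg.2 m w h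

theorem ristLevel_fix {U : Subgroup (LP q)} {m : ℕ} {g : LP q} (hg : g ∈ ristLevel U m) :
    g m = 1 := by
  have : ristLevel U m ≤ (Pi.evalMonoidHom (fun m => Equiv.Perm (Vert q m)) m).ker :=
    iSup_le fun v => fun h hh => rist_fix_level hh
  exact this hg

section main

variable (hq : ∀ i, 2 ≤ q i)

/-- The rigid level stabiliser as a subgroup of the automorphism group. -/
abbrev A' (q : ℕ → ℕ) (m : ℕ) : Subgroup (AutT q) := (ristLevel (AutT q) m).subgroupOf (AutT q)

include hq in
theorem FA_aux (m : ℕ) : ∀ w : VT q, (treeBF hq (autT_branch hq)).lev w = m →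
    (treeBF hq (autT_branch hq)).R w ≤ A' q m := by
  rintro ⟨k, w⟩ (rfl : k = m)
  exact fun g hg => rist_le_level (AutT q) w hg

/-- The forest structure of the rigid level stabiliser. -/
noncomputable def FA (m : ℕ) : BF (A' q m) (VT q) :=
  (treeBF hq (autT_branch hq)).restrict (A' q m) m (FA_aux hq m)

include hq in
theorem FA_top (m : ℕ) : (⨆ v : (FA hq m).L m, (FA hq m).R v.1) = ⊤ := by
  have h1 : (⨆ v : (FA hq m).L m, (FA hq m).R v.1) =
      ⨆ v : (FA hq m).L m, ((rist (AutT q) v.1.2).subgroupOf (AutT q)).subgroupOf (A' q m) := rfl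
  rw [h1, ← iSup_subgroupOf, ← iSup_subgroupOf]
  · rw [Subgroup.subgroupOf_eq_top]
    intro g hg
    have h2 : ristLevel (AutT q) m ≤ ⨆ v : (FA hq m).L m, rist (AutT q) v.1.2 := by
      apply iSup_le
      intro v
      exact le_iSup (fun v : (FA hq m).L m => rist (AutT q) v.1.2) ⟨⟨m, v⟩, rfl⟩
    exact h2 hg
  · intro v; exact rist_le _ _
  · intro v; exact FA_aux hq m v.1 v.2

include hq in
theorem FA_TR (m : ℕ) (v : VT q) (hv : v.1 = m) : (FA hq m).TR v := by
  obtain ⟨k, v⟩ := v
  subst hv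
  rintro ⟨n, u⟩ ⟨n', u'⟩ (h1 : k ≤ n) (h2 : n = n') h3 h4
  subst h2
  have h3' : ancT k (⟨n, u⟩ : VT q) = ⟨k, v⟩ := h3
  have h4' : ancT k (⟨n, u'⟩ : VT q) = ⟨k, v⟩ := h4
  rw [ancT_of_le (v := (⟨n, u⟩ : VT q)) h1, mk_eq_iff] at h3'
  rw [ancT_of_le (v := (⟨n, u'⟩ : VT q)) h1, mk_eq_iff] at h4'
  obtain ⟨g, hg, hgu⟩ := autT_TR h1 v u u' h3' h4'
  refine ⟨⟨⟨g, hg.1⟩, rist_le_level (AutT q) v hg⟩, hg, ?_⟩
  show (⟨n, g n u⟩ : VT q) = ⟨n, u'⟩
  rw [hgu]

/-- Vertices of level `m`. -/
def levEquiv (m : ℕ) : {v : VT q // v.1 = m} ≃ Vert q m where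
  toFun v := v.2 ▸ v.1.2
  invFun v := ⟨⟨m, v⟩, rfl⟩
  left_inv v := by obtain ⟨⟨k, v⟩, rfl⟩ := v; rfl
  right_inv v := rfl

theorem card_level (m : ℕ) : Nat.card {v : VT q // v.1 = m} = ∏ i ∈ Finset.range m, q i := by
  rw [Nat.card_congr (levEquiv m), Nat.card_eq_fintype_card, Fintype.card_pi]
  simp only [Fintype.card_fin]
  exact Fin.prod_univ_eq_prod_range q m

include hq in
/-- If a rigid level stabiliser is an `n`-th power, then `n` divides the size of the level. -/
theorem dvd_of_pow (m n : ℕ) (K : Type) [Group K] (ψ : A' q m ≃* (Fin n → K)) :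
    n ∣ ∏ i ∈ Finset.range m, q i := by
  obtain ⟨κ, -, hκ⟩ := (FA hq m).ks_card m (FA_TR hq m) (FA_top hq m) ψ
  have h1 : Nat.card ((FA hq m).L m) = ∏ i ∈ Finset.range m, q i := card_level m
  rcases Nat.eq_zero_or_pos n with rfl | hn
  · exfalso
    obtain ⟨v⟩ : Nonempty (Vert q m) := ⟨fun i => ⟨0, by have := hq i; omega⟩⟩
    exact Fin.elim0 (κ ⟨⟨m, v⟩, rfl⟩)
  · rw [← h1, card_eq_mul_of_fibres κ (Nat.card {v // κ v = ⟨0, hn⟩}) (fun j => hκ j _)]
    rw [Nat.card_eq_fintype_card (α := Fin n), Fintype.card_fin]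
    exact dvd_mul_left _ _

/-- Elements of an open subgroup. -/
theorem exists_level_of_open (hq : ∀ i, 2 ≤ q i) {X : Type} [Group X] [TopologicalSpace X]
    (f : X →* LP q) (hf : IsInducing f) (hU : ∀ x, f x ∈ AutT q)
    (K : Subgroup X) (hK : IsOpen (K : Set X)) : ∃ l0, ∀ x : X, f x l0 = 1 → x ∈ K := by
  obtain ⟨t, ht, hKt⟩ := hf.isOpen_iff.mp hK
  have h1 : (1 : LP q) ∈ t := by
    have : (1 : X) ∈ f ⁻¹' t := by rw [hKt]; exact K.one_mem
    have h2 : f 1 ∈ t := this
    rwa [map_one] at h2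
  obtain ⟨I, u, hu, hut⟩ := isOpen_pi_iff.mp ht 1 h1
  refine ⟨I.sup id, fun g hg => ?_⟩
  have h2 : f g ∈ t := by
    apply hut
    intro i hi
    have h3 : i ≤ I.sup id := Finset.le_sup (f := id) hi
    have h4 : f g i = 1 := by
      ext w : 1
      obtain ⟨x, hx⟩ := exists_ext hq h3 w
      rw [← hx, ← AutT.trunc (hU g), hg]
      rfl
    rw [h4]
    exact (hu i hi).2
  have h5 : g ∈ f ⁻¹' t := h2
  rw [hKt] at h5
  exact h5

include hq in
/-- The main obstruction: an even number of vertices on level one and odd branching afterwards. -/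
theorem not_square (h0 : q 0 = 2) (hodd : ∀ i, Odd (q (i + 1))) (m : ℕ) (K : Subgroup (AutT q))
    (hK : IsOpen (K : Set (AutT q))) (φ : A' q m ≃ₜ* (Fin 2 → K)) : False := by
  have hU := autT_branch hq
  obtain ⟨l0, hl0⟩ := exists_level_of_open hq (AutT q).subtype IsInducing.subtypeVal
    (fun x => x.2) K hK
  have hKR : ∀ w : VT q, (treeBF hq hU).lev w = l0 → (treeBF hq hU).R w ≤ K := by
    rintro ⟨k, w⟩ (rfl : k = l0) g hg
    exact hl0 g (rist_fix_level hg)
  set FK := (treeBF hq hU).restrict K l0 hKR with hFK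
  set F' := FK.pow 2 with hF'
  set Fm := FA hq m with hFm
  set φ' : A' q m ≃* (Fin 2 → K) := φ.toMulEquiv with hφ'
  have hPC : PC (fun v : Fm.L m => (Fm.R v.1).map φ'.toMonoidHom) := (Fm.R_PC m).map _
  have htopQ : (⨆ v : Fm.L m, (Fm.R v.1).map φ'.toMonoidHom) = ⊤ :=
    iSup_map_top (FA_top hq m) φ'
  obtain ⟨l1, -, hπ⟩ := F'.exists_pi hPC 0 (fun w _ => by rw [htopQ]; exact le_top)
  set l := max l1 (max l0 1) with hl
  have hl1 : l1 ≤ l := le_max_left _ _
  have hl0' : l0 ≤ l := (le_max_left _ _).trans (le_max_right _ _)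
  have hl1' : 1 ≤ l := (le_max_right _ _).trans (le_max_right _ _)
  -- large rigid stabilisers on the other side
  have hB : ∃ l0, ∀ u, Fm.lev u = l0 →
      Fm.R u ≤ ⨆ w : F'.L l, (F'.R w.1).map φ'.symm.toMonoidHom := by
    rw [← Subgroup.map_iSup]
    set N : Subgroup (Fin 2 → K) := ⨆ w : F'.L l, F'.R w.1 with hN
    have hN1 : ∀ x : Fin 2 → K, (∀ j, (x j).1.1 l = 1) → x ∈ N := by
      intro x hx
      apply Subgroup.pi_mem_of_mulSingle_mem
      intro j
      have h1 : (x j).1.1 ∈ ristLevel (AutT q) l := level_fix_le hq (x j).1.2 (hx j)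
      have h2 : ∀ w : Vert q l, (rist (AutT q) w).subgroupOf (AutT q) ≤ K := by
        intro w g hg
        apply hl0
        show g.1 l0 = 1
        have h3 : g.1 l = 1 := rist_fix_level hg
        ext y : 1
        obtain ⟨z, hz⟩ := exists_ext hq hl0' y
        rw [← hz, ← AutT.trunc g.2, h3]
        rfl
      have h3 : x j ∈ ((ristLevel (AutT q) l).subgroupOf (AutT q)).subgroupOf K := h1
      have h4 : ((ristLevel (AutT q) l).subgroupOf (AutT q)).subgroupOf K ≤
          N.comap (MonoidHom.mulSingle (fun _ : Fin 2 => K) j) := by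
        rw [ristLevel, iSup_subgroupOf _ _ (fun w => rist_le _ w), iSup_subgroupOf _ _ h2]
        apply iSup_le
        intro w g hg
        have h5 : F'.R (⟨l, w⟩, j) ≤ N :=
          le_iSup (fun w : F'.L l => F'.R w.1) ⟨(⟨l, w⟩, j), rfl⟩
        apply h5
        constructor
        · show (MonoidHom.mulSingle (fun _ : Fin 2 => K) j g) j ∈ _
          rw [MonoidHom.mulSingle_apply, Pi.mulSingle_eq_same]
          exact hg
        · intro i hi
          exact Pi.mulSingle_eq_of_ne hi _
      exact h4 h3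
    have hN2 : IsOpen (N : Set (Fin 2 → K)) := by
      have h2 : IsOpen ({x : Fin 2 → K | ∀ j, (x j).1.1 l = 1}) := by
        have : {x : Fin 2 → K | ∀ j, (x j).1.1 l = 1} =
            ⋂ j : Fin 2, {x : Fin 2 → K | (x j).1.1 l = 1} := by
          ext x; simp
        rw [this]
        refine isOpen_iInter_of_finite fun j => ?_
        have hc : Continuous (fun x : Fin 2 → K => (x j).1.1 l) :=
          (continuous_apply l).comp (continuous_subtype_val.comp
            (continuous_subtype_val.comp (continuous_apply j)))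
        exact (isOpen_discrete {x : Equiv.Perm (Vert q l) | x = 1}).preimage hc
      exact Subgroup.isOpen_of_mem_nhds _ (g := 1)
        (Filter.mem_of_superset (h2.mem_nhds (fun _ => rfl)) (fun x hx => hN1 x hx))
    have hN3 : IsOpen ((N.comap φ'.toMonoidHom : Subgroup (A' q m)) : Set (A' q m)) :=
      hN2.preimage φ.continuous
    obtain ⟨k, hk⟩ := exists_level_of_open hq ((AutT q).subtype.comp (A' q m).subtype)
      (IsInducing.subtypeVal.comp IsInducing.subtypeVal) (fun x => x.1.2) _ hN3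
    refine ⟨k, ?_⟩
    rintro ⟨k', u⟩ (rfl : k' = k) g hg
    have h1 : g ∈ N.comap φ'.toMonoidHom := hk g (rist_fix_level hg)
    exact ⟨φ' g, h1, φ'.symm_apply_apply g⟩
  obtain ⟨l2, hd⟩ := Fm.dual F' φ' m l1 (fun w _ => by rw [htopQ]; exact le_top) hπ l hl1 hB
  -- level `0`
  have hcard : Nat.card (Fm.L m) = ∏ i ∈ Finset.range m, q i := card_level m
  obtain ⟨κ, hκ1, hκ2⟩ := Fm.ks_card m (FA_TR hq m) (FA_top hq m) φ'
  have hcard2 : Nat.card (Fm.L m) = Nat.card {v // κ v = 0} * 2 := by
    rw [card_eq_mul_of_fibres κ (Nat.card {v // κ v = 0}) (fun j => hκ2 j _),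
      Nat.card_eq_fintype_card (α := Fin 2), Fintype.card_fin]
  have hm : 1 ≤ m := by
    by_contra hm
    have : m = 0 := by omega
    subst this
    rw [hcard, Finset.range_zero, Finset.prod_empty] at hcard2
    omega
  -- the supports have odd size
  have hc : ∀ v : Fm.L m, Odd (Nat.card {w : F'.L l //
      ∃ v' : Fm.L m, v'.1 ∈ ({v.1} : Set (VT q)) ∧ F'.Mv ((Fm.R v'.1).map φ'.toMonoidHom) w.1}) := by
    rintro ⟨⟨k, v⟩, (rfl : k = m)⟩
    have h1 := hd (k + l2) (Nat.le_add_left _ _) {(⟨k, v⟩ : VT q)} ?_ ?_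
    · refine Odd.of_dvd_nat ?_ h1
      have e : {u : Fm.L (k + l2) // Fm.anc k u.1 ∈ ({(⟨k, v⟩ : VT q)} : Set (VT q))} ≃
          {w : Vert q (k + l2) // trunc (Nat.le_add_right k l2) w = v} :=
        { toFun := fun u => ⟨levEquiv (k + l2) u.1, by
            obtain ⟨⟨⟨n, u⟩, (rfl : n = k + l2)⟩, hu⟩ := u
            have h2 : ancT k (⟨k + l2, u⟩ : VT q) = ⟨k, v⟩ := hu
            rw [ancT_of_le (v := (⟨k + l2, u⟩ : VT q)) (Nat.le_add_right k l2), mk_eq_iff] at h2
            exact h2⟩
          invFun := fun w => ⟨⟨⟨k + l2, w.1⟩, rfl⟩, by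
            show ancT k (⟨k + l2, w.1⟩ : VT q) = ⟨k, v⟩
            rw [ancT_of_le (v := (⟨k + l2, w.1⟩ : VT q)) (Nat.le_add_right k l2), mk_eq_iff]
            exact w.2⟩
          left_inv := fun u => by
            obtain ⟨⟨⟨n, u⟩, (rfl : n = k + l2)⟩, hu⟩ := u
            rfl
          right_inv := fun w => rfl }
      rw [Nat.card_congr e, card_below v l2]
      apply Finset.prod_induction _ Odd (fun a b ha hb => ha.mul hb) odd_one
      intro i _
      have h3 := hodd (k + i - 1)
      rwa [show k + i - 1 + 1 = k + i by omega] at h3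
    · intro w hw g
      rw [Set.mem_singleton_iff] at hw ⊢
      subst hw
      have h2 : g.1.1 k = 1 := ristLevel_fix g.2
      show (⟨k, g.1.1 k v⟩ : VT q) = ⟨k, v⟩
      rw [h2]; rfl
    · intro u u' hu hu' h2 h3
      rw [Set.mem_singleton_iff] at h2 h3
      have h4 : k ≤ Fm.lev u := by rw [hu]; exact Nat.le_add_right _ _
      obtain ⟨g, -, hg⟩ := FA_TR hq k ⟨k, v⟩ rfl u u' h4 (hu.trans hu'.symm) h2 h3
      exact ⟨g, hg⟩
  -- each fibre of `κ` is even
  have heven : ∀ j, Even (Nat.card {v // κ v = j}) := by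
    intro j
    -- the copy of a moved vertex
    have hcopy : ∀ (v : Fm.L m) (w : F'.L l),
        F'.Mv ((Fm.R v.1).map φ'.toMonoidHom) w.1 → κ v = w.1.2 := by
      rintro v w ⟨_, ⟨g, hg, rfl⟩, hgw⟩
      obtain ⟨x, hx, hxg⟩ := (hκ1 v (κ v)).mpr rfl hg
      by_contra hne
      apply hgw
      have h1 : φ' g = x := by
        have := congrArg φ' hxg
        rw [← this]
        exact φ'.apply_symm_apply x
      have h2 : φ'.toMonoidHom g w.1.2 = 1 := by
        show φ' g w.1.2 = 1
        rw [h1]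
        exact hx _ (fun h => hne h.symm)
      show (FK.act (φ'.toMonoidHom g w.1.2) w.1.1, w.1.2) = w.1
      rw [h2, map_one]
      rfl
    have hπ' : ∀ w : F'.L l, ∃ v : Fm.L m, F'.Mv ((Fm.R v.1).map φ'.toMonoidHom) w.1 ∧
        ∀ v', F'.Mv ((Fm.R v'.1).map φ'.toMonoidHom) w.1 → v' = v := by
      intro w
      obtain ⟨v, hv, hv'⟩ := hπ w.1 (by rw [w.2]; exact hl1)
      exact ⟨v, hv, fun v' h => hv' v' h⟩
    choose π hπ1 hπ2 using hπ'
    have e : {w : F'.L l // w.1.2 = j} ≃ Σ v : {v : Fm.L m // κ v = j}, {w : F'.L l //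
        ∃ v' : Fm.L m, v'.1 ∈ ({v.1.1} : Set (VT q)) ∧
          F'.Mv ((Fm.R v'.1).map φ'.toMonoidHom) w.1} :=
      { toFun := fun w => ⟨⟨π w.1, (hcopy _ _ (hπ1 w.1)).trans w.2⟩, ⟨w.1, π w.1, rfl, hπ1 w.1⟩⟩
        invFun := fun p => ⟨p.2.1, by
          obtain ⟨v', hv', hmv⟩ := p.2.2
          rw [← hcopy v' _ hmv]
          have : v' = p.1.1 := Subtype.ext hv'
          rw [this]; exact p.1.2⟩
        left_inv := fun w => rfl
        right_inv := fun p => by
          obtain ⟨⟨v, hv⟩, ⟨w, v', hv', hmv⟩⟩ := p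
          have h1 : v' = v := Subtype.ext hv'
          subst h1
          have h2 : v' = π w := hπ2 w v' hmv
          subst h2
          rfl }
    have hcardj : Nat.card {w : F'.L l // w.1.2 = j} = ∏ i ∈ Finset.range l, q i := by
      have e' : {w : F'.L l // w.1.2 = j} ≃ {v : VT q // v.1 = l} :=
        { toFun := fun w => ⟨w.1.1.1, w.1.2⟩
          invFun := fun v => ⟨⟨(v.1, j), v.2⟩, rfl⟩
          left_inv := fun w => by
            obtain ⟨⟨⟨v, j'⟩, h1⟩, h2⟩ := w
            subst h2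
            rfl
          right_inv := fun v => rfl }
      rw [Nat.card_congr e', card_level]
    have hev : Even (∏ i ∈ Finset.range l, q i) := by
      have h1 : q 0 ∣ ∏ i ∈ Finset.range l, q i := Finset.dvd_prod_of_mem _ (Finset.mem_range.mpr hl1')
      rw [h0] at h1
      exact (even_iff_two_dvd).mpr h1
    rw [← hcardj, Nat.card_congr e] at hev
    have : Fintype {v : Fm.L m // κ v = j} := Fintype.ofFinite _
    rw [Nat.card_sigma, ← Nat.not_odd_iff_even, Finset.odd_sum_iff_odd_card_odd] at hev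
    rw [← Nat.not_odd_iff_even]
    intro hodd'
    apply hev
    have h1 : (Finset.univ.filter fun v : {v : Fm.L m // κ v = j} => Odd (Nat.card {w : F'.L l //
        ∃ v' : Fm.L m, v'.1 ∈ ({v.1.1} : Set (VT q)) ∧
          F'.Mv ((Fm.R v'.1).map φ'.toMonoidHom) w.1})) = Finset.univ := by
      rw [Finset.filter_eq_self]
      intro v _
      exact hc v.1
    rw [h1, Finset.card_univ, ← Nat.card_eq_fintype_card]
    exact hodd'
  -- contradiction modulo four
  obtain ⟨r, hr⟩ := heven 0
  rw [hr, hcard] at hcard2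
  obtain ⟨m', rfl⟩ : ∃ m', m = m' + 1 := ⟨m - 1, by omega⟩
  rw [Finset.prod_range_succ', h0] at hcard2
  have h1 : Odd (∏ i ∈ Finset.range m', q (i + 1)) :=
    Finset.prod_induction _ Odd (fun a b ha hb => ha.mul hb) odd_one (fun i _ => hodd i)
  obtain ⟨s, hs⟩ := h1
  omega

end main

end Pool.Agent.Q24.RB
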