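import Pool.Agent.Q24.RB.Neg

/-! Topological complements for the counterexamples. -/

namespace Pool.Agent.Q24.RB

open Topology

variable {q : ℕ → ℕ}

theorem mem_ristLevel_iff (hq : ∀ i, 2 ≤ q i) {m : ℕ} {g : LP q} :
    g ∈ ristLevel (AutT q) m ↔ g ∈ AutT q ∧ g m = 1 :=
  ⟨fun h => ⟨ristLevel_le _ _ h, ristLevel_fix h⟩, fun h => level_fix_le hq h.1 h.2⟩

theorem ristLevel_closed (hq : ∀ i, 2 ≤ q i) (m : ℕ) :
    IsClosed (ristLevel (AutT q) m : Set (LP q)) := by
  have : (ristLevel (AutT q) m : Set (LP q)) = (AutT q : Set (LP q)) ∩ {g | g m = 1} := by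
    ext g; exact mem_ristLevel_iff hq
  rw [this]
  refine autT_closed.inter ?_
  have hc : Continuous (fun g : LP q => g m) := continuous_apply m
  exact (isClosed_discrete {x : Equiv.Perm (Vert q m) | x = 1}).preimage hc

theorem ristLevel_compact (hq : ∀ i, 2 ≤ q i) (m : ℕ) : CompactSpace (ristLevel (AutT q) m) :=
  isCompact_iff_compactSpace.mp (ristLevel_closed hq m).isCompact

/-- A continuous bijective homomorphism from a compact group to a Hausdorff group. -/
noncomputable def isoOfBij {X Y : Type} [Group X] [TopologicalSpace X] [Group Y]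
    [TopologicalSpace Y] [CompactSpace X] [T2Space Y] (f : X →* Y) (hf : Function.Bijective f)
    (hc : Continuous f) : X ≃ₜ* Y :=
  { MulEquiv.ofBijective f hf with
    continuous_toFun := hc
    continuous_invFun :=
      (Continuous.homeoOfEquivCompactToT2 (f := Equiv.ofBijective f hf) hc).continuous_symm }

/-- The rigid level stabiliser, seen in the automorphism group or in the ambient group. -/
def ristLevelIso (U : Subgroup (LP q)) (m : ℕ) :
    (ristLevel U m).subgroupOf U ≃ₜ* ristLevel U m where
  toFun x := ⟨x.1.1, x.2⟩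
  invFun x := ⟨⟨x.1, ristLevel_le _ _ x.2⟩, x.2⟩
  left_inv _ := rfl
  right_inv _ := rfl
  map_mul' _ _ := rfl
  continuous_toFun := (continuous_subtype_val.comp continuous_subtype_val).subtype_mk _
  continuous_invFun := (continuous_subtype_val.subtype_mk _).subtype_mk _

/-- Rigid level stabilisers of the full automorphism group are powers of those of the subtrees of
level one. -/
theorem ristLevel_pow (hq : ∀ i, 2 ≤ q i) (m : ℕ) :
    Nonempty (ristLevel (AutT q) (m + 1) ≃ₜ* (Fin (q 0) → ristLevel (AutT (shift q)) m)) := by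
  have hq' : ∀ i, 2 ≤ shift q i := fun i => hq (i + 1)
  have hc := ristLevel_compact hq' m
  let inc : (Fin (q 0) → ristLevel (AutT (shift q)) m) →* (Fin (q 0) → AutT (shift q)) :=
    MonoidHom.compLeft (Subgroup.inclusion (ristLevel_le (AutT (shift q)) m)) (Fin (q 0))
  have hinc : Continuous inc := by
    refine continuous_pi fun a => ?_
    exact ((continuous_subtype_val.comp (continuous_apply a)).subtype_mk _)
  have hmem : ∀ x, (jnHom q (inc x)).1 ∈ ristLevel (AutT q) (m + 1) := by
    intro x
    rw [mem_ristLevel_iff hq]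
    refine ⟨(jnHom q (inc x)).2, ?_⟩
    ext y : 1
    show cn (y 0) ((x (y 0)).1 m (tl y)) = y
    rw [ristLevel_fix (x (y 0)).2]
    exact cn_tl y
  let f : (Fin (q 0) → ristLevel (AutT (shift q)) m) →* ristLevel (AutT q) (m + 1) :=
    ((AutT q).subtype.comp ((jnHom q).comp inc)).codRestrict _ hmem
  have hf : Continuous f :=
    (continuous_subtype_val.comp (jnHom_continuous.comp hinc)).subtype_mk _
  have hbij : Function.Bijective f := by
    constructor
    · intro x y hxy
      have h1 : jnHom q (inc x) = jnHom q (inc y) := by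
        apply Subtype.ext
        exact congrArg (fun z : ristLevel (AutT q) (m + 1) => z.1) hxy
      have h2 := jnHom_injective h1
      funext a
      apply Subtype.ext
      exact congrArg (fun z : Fin (q 0) → AutT (shift q) => (z a).1) h2
    · rintro ⟨g, hg⟩
      have hgA : g ∈ AutT q := ristLevel_le _ _ hg
      have hg1 : g 1 = 1 := by
        ext w : 1
        obtain ⟨x, hx⟩ := exists_ext hq (Nat.le_add_left 1 m) w
        rw [← hx, ← AutT.trunc hgA, ristLevel_fix hg]
        rfl
      obtain ⟨h, hh⟩ := jnHom_range ⟨g, hgA⟩ hg1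
      have hh' : jn (fun a => (h a).1) = g := congrArg Subtype.val hh
      refine ⟨fun a => ⟨(h a).1, ?_⟩, ?_⟩
      · rw [mem_ristLevel_iff hq']
        refine ⟨(h a).2, ?_⟩
        ext y : 1
        have h1 : jn (fun a => (h a).1) (m + 1) (cn a y) = cn a y := by
          rw [hh', ristLevel_fix hg]; rfl
        have h2 := congrArg tl h1
        exact h2
      · apply Subtype.ext
        exact hh'
  exact ⟨(isoOfBij f hbij hf).symm⟩

/-- Compact subgroups of finite index are open. -/
theorem open_of_iso (hq : ∀ i, 2 ≤ q i) (m n : ℕ) (K : Subgroup (AutT q)) [K.FiniteIndex]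
    (φ : ristLevel (AutT q) m ≃ₜ* (Fin (n + 1) → K)) : IsOpen (K : Set (AutT q)) := by
  have hc := ristLevel_compact hq m
  have h1 : CompactSpace (Fin (n + 1) → K) := φ.toHomeomorph.compactSpace
  have h2 : CompactSpace K := by
    have h3 : Function.Surjective (fun x : Fin (n + 1) → K => x 0) := fun k => ⟨fun _ => k, rfl⟩
    exact h3.compactSpace (continuous_apply 0)
  have h3 : IsClosed (K : Set (AutT q)) := (isCompact_iff_compactSpace.mpr h2).isClosed
  exact Subgroup.isOpen_of_isClosed_of_finiteIndex K h3

end Pool.Agent.Q24.RB
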