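import Pool.Agent.Q24.RB.Forest3

/-! Spherically homogeneous rooted trees, their automorphism groups, branch groups. -/

namespace Pool.Agent.Q24.RB

theorem pinv {α : Type} (g : Equiv.Perm α) (x : α) : g (g⁻¹ x) = x := g.apply_symm_apply x

theorem pinv' {α : Type} (g : Equiv.Perm α) (x : α) : g⁻¹ (g x) = x := g.symm_apply_apply x

/-- Vertices of level `m` of the rooted tree with branching sequence `q`. -/
abbrev Vert (q : ℕ → ℕ) (m : ℕ) : Type := (i : Fin m) → Fin (q i)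

/-- Level-wise permutations of the vertices. -/
abbrev LP (q : ℕ → ℕ) : Type := ∀ m, Equiv.Perm (Vert q m)

/-- The permutations of a (finite) level form a discrete group, so that `LP q` carries the
topology of pointwise convergence. -/
instance (q : ℕ → ℕ) (m : ℕ) : TopologicalSpace (Equiv.Perm (Vert q m)) := ⊥

instance (q : ℕ → ℕ) (m : ℕ) : DiscreteTopology (Equiv.Perm (Vert q m)) := ⟨rfl⟩

/-- The vertex `w` lies in the subtree rooted at `v`. -/
def Below {q : ℕ → ℕ} {m n : ℕ} (v : Vert q m) (w : Vert q n) : Prop :=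
  ∃ h : m ≤ n, ∀ i : Fin m, w (Fin.castLE h i) = v i

/-- The automorphism group of the rooted tree. -/
def AutT (q : ℕ → ℕ) : Subgroup (LP q) where
  carrier := {g | ∀ m n (v : Vert q m) (w : Vert q n), Below (g m v) (g n w) ↔ Below v w}
  one_mem' := fun _ _ _ _ => Iff.rfl
  mul_mem' := fun {a b} ha hb m n v w => (ha m n _ _).trans (hb m n v w)
  inv_mem' := fun {a} ha m n v w => by
    rw [← ha m n]
    show Below (a m ((a m)⁻¹ v)) (a n ((a n)⁻¹ w)) ↔ _
    rw [pinv, pinv]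

/-- The rigid stabiliser of the vertex `v` in `U`: elements which fix every vertex outside the
subtree rooted at `v`. -/
def rist {q : ℕ → ℕ} (U : Subgroup (LP q)) {m : ℕ} (v : Vert q m) : Subgroup (LP q) where
  carrier := {g | g ∈ U ∧ ∀ n (w : Vert q n), ¬ Below v w → g n w = w}
  one_mem' := ⟨one_mem _, fun _ _ _ => rfl⟩
  mul_mem' := fun {a b} ha hb => ⟨mul_mem ha.1 hb.1, fun n w hw => by
    show a n (b n w) = w
    rw [hb.2 n w hw, ha.2 n w hw]⟩
  inv_mem' := fun {a} ha => ⟨inv_mem ha.1, fun n w hw => by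
    show (a n)⁻¹ w = w
    rw [Equiv.Perm.inv_eq_iff_eq]
    exact (ha.2 n w hw).symm⟩

/-- The rigid stabiliser of the level `m` in `U`. -/
def ristLevel {q : ℕ → ℕ} (U : Subgroup (LP q)) (m : ℕ) : Subgroup (LP q) :=
  ⨆ v : Vert q m, rist U v

/-- Profinite branch groups: closed, transitive on every level, with rigid level stabilisers of
finite index. -/
def IsBranch {q : ℕ → ℕ} (U : Subgroup (LP q)) : Prop :=
  U ≤ AutT q ∧ IsClosed (U : Set (LP q)) ∧
    (∀ m (v w : Vert q m), ∃ g ∈ U, g m v = w) ∧ ∀ m, (ristLevel U m).relIndex U ≠ 0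

/-- Truncation of vertices. -/
def trunc {q : ℕ → ℕ} {k n : ℕ} (h : k ≤ n) (w : Vert q n) : Vert q k := fun i => w (Fin.castLE h i)

theorem below_iff {q : ℕ → ℕ} {m n : ℕ} {v : Vert q m} {w : Vert q n} :
    Below v w ↔ ∃ h : m ≤ n, trunc h w = v := by
  constructor
  · rintro ⟨h, h1⟩; exact ⟨h, funext h1⟩
  · rintro ⟨h, h1⟩; exact ⟨h, fun i => congrFun h1 i⟩

theorem below_iff_of_le {q : ℕ → ℕ} {m n : ℕ} (h : m ≤ n) {v : Vert q m} {w : Vert q n} :
    Below v w ↔ trunc h w = v := by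
  rw [below_iff]
  exact ⟨fun ⟨_, h1⟩ => h1, fun h1 => ⟨h, h1⟩⟩

theorem trunc_trunc {q : ℕ → ℕ} {j k n : ℕ} (h1 : j ≤ k) (h2 : k ≤ n) (w : Vert q n) :
    trunc h1 (trunc h2 w) = trunc (h1.trans h2) w := rfl

theorem trunc_self {q : ℕ → ℕ} {n : ℕ} (w : Vert q n) : trunc le_rfl w = w := rfl

theorem AutT.trunc {q : ℕ → ℕ} {g : LP q} (hg : g ∈ AutT q) {k n : ℕ} (h : k ≤ n) (w : Vert q n) :
    RB.trunc h (g n w) = g k (RB.trunc h w) := by
  have := (hg k n (RB.trunc h w) w).mpr ((below_iff_of_le h).mpr rfl)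
  exact (below_iff_of_le h).mp this

/-- The type of all vertices. -/
abbrev VT (q : ℕ → ℕ) : Type := Σ m, Vert q m

/-- Ancestors. -/
def ancT {q : ℕ → ℕ} (k : ℕ) (v : VT q) : VT q :=
  if h : k ≤ v.1 then ⟨k, trunc h v.2⟩ else v

theorem ancT_of_le {q : ℕ → ℕ} {k : ℕ} {v : VT q} (h : k ≤ v.1) : ancT k v = ⟨k, trunc h v.2⟩ :=
  dif_pos h

/-- The action on all vertices. -/
def actT (q : ℕ → ℕ) : LP q →* Equiv.Perm (VT q) := Equiv.Perm.sigmaCongrRightHom _

theorem actT_apply {q : ℕ → ℕ} (g : LP q) (v : VT q) : actT q g v = ⟨v.1, g v.1 v.2⟩ := rfl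

theorem mk_eq_iff {q : ℕ → ℕ} {m : ℕ} {v w : Vert q m} :
    (⟨m, v⟩ : VT q) = ⟨m, w⟩ ↔ v = w := by
  constructor
  · intro h; exact eq_of_heq (Sigma.mk.inj h).2
  · rintro rfl; rfl

/-- Existence of extensions. -/
theorem exists_ext {q : ℕ → ℕ} (hq : ∀ i, 2 ≤ q i) {m n : ℕ} (h : m ≤ n) (v : Vert q m) :
    ∃ w : Vert q n, trunc h w = v := by
  refine ⟨fun i => if hi : (i : ℕ) < m then v ⟨i, hi⟩ else ⟨0, by have := hq i; omega⟩, ?_⟩
  ext i
  simp [trunc]

theorem rist_le {q : ℕ → ℕ} (U : Subgroup (LP q)) {m : ℕ} (v : Vert q m) : rist U v ≤ U :=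
  fun _ hg => hg.1

theorem rist_mono {q : ℕ → ℕ} (U : Subgroup (LP q)) {m n : ℕ} {v : Vert q m} {w : Vert q n}
    (h : Below v w) : rist U w ≤ rist U v := by
  rintro g ⟨hg1, hg2⟩
  refine ⟨hg1, fun k x hx => hg2 k x ?_⟩
  intro h1
  apply hx
  rw [below_iff] at h h1 ⊢
  obtain ⟨h, rfl⟩ := h
  obtain ⟨h1, rfl⟩ := h1
  exact ⟨h.trans h1, rfl⟩

theorem rist_conj {q : ℕ → ℕ} {U : Subgroup (LP q)} (hU : U ≤ AutT q) {g : LP q} (hg : g ∈ U)
    {m : ℕ} {v : Vert q m} {h : LP q} (hh : h ∈ rist U v) : g * h * g⁻¹ ∈ rist U (g m v) := by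
  refine ⟨mul_mem (mul_mem hg hh.1) (inv_mem hg), fun n w hw => ?_⟩
  show g n (h n ((g n)⁻¹ w)) = w
  rw [hh.2 n _ ?_, pinv]
  intro h1
  apply hw
  have := (hU hg m n v ((g n)⁻¹ w)).mpr h1
  rwa [pinv] at this

theorem ne_of_card_unbounded {q : ℕ → ℕ} (hq : ∀ i, 2 ≤ q i) (U : Subgroup (LP q))
    (htr : ∀ m (v w : Vert q m), ∃ g ∈ U, g m v = w) : Infinite U := by
  by_contra hfin
  rw [not_infinite_iff_finite] at hfin
  have : Fintype U := Fintype.ofFinite U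
  have h1 : ∀ m, Fintype.card (Vert q m) ≤ Fintype.card U := by
    intro m
    obtain ⟨v0⟩ : Nonempty (Vert q m) := ⟨fun i => ⟨0, by have := hq i; omega⟩⟩
    apply Fintype.card_le_of_surjective (fun g : U => (g.1 m) v0)
    intro w
    obtain ⟨g, hg, h⟩ := htr m v0 w
    exact ⟨⟨g, hg⟩, h⟩
  have h2 : ∀ m, m < Fintype.card (Vert q m) := by
    intro m
    calc m < 2 ^ m := Nat.lt_two_pow_self
      _ = ∏ i : Fin m, 2 := by simp
      _ ≤ ∏ i : Fin m, q i := Finset.prod_le_prod' fun i _ => hq i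
      _ = Fintype.card (Vert q m) := by rw [Fintype.card_pi]; simp
  exact absurd (h1 (Fintype.card U)) (not_le.mpr (h2 _))

section branch

variable {q : ℕ → ℕ} (hq : ∀ i, 2 ≤ q i) {U : Subgroup (LP q)} (hU : IsBranch U)

include hq hU

theorem rist_ne_bot {m : ℕ} (v : Vert q m) : ∃ g ∈ rist U v, g ≠ 1 := by
  by_contra hne
  push Not at hne
  have hinf := ne_of_card_unbounded hq U hU.2.2.1
  have h1 : ristLevel U m = ⊥ := by
    rw [ristLevel, eq_bot_iff]
    apply iSup_le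
    intro w h hh
    obtain ⟨g, hg, hgv⟩ := hU.2.2.1 m w v
    have h2 := rist_conj hU.1 hg hh
    rw [hgv] at h2
    have h3 := hne _ h2
    have h4 : h = 1 := by
      have h5 : g⁻¹ * (g * h * g⁻¹) * g = 1 := by rw [h3, mul_one, inv_mul_cancel]
      simpa [mul_assoc] using h5
    rw [h4]; exact one_mem _
  have h2 := hU.2.2.2 m
  rw [h1, Subgroup.relIndex_bot_left] at h2
  exact h2 Nat.card_eq_zero_of_infinite

theorem rist_moves_one {m : ℕ} (v : Vert q m) :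
    ∃ g ∈ rist U v, ∃ n, ∃ w : Vert q n, Below v w ∧ g n w ≠ w := by
  obtain ⟨g, hg, hg1⟩ := rist_ne_bot hq hU v
  refine ⟨g, hg, ?_⟩
  by_contra hne
  push Not at hne
  apply hg1
  funext n
  ext w : 1
  by_cases h : Below v w
  · exact hne n w h
  · exact hg.2 n w h

theorem rist_nonab {m : ℕ} (v : Vert q m) : ∃ g ∈ rist U v, ∃ h ∈ rist U v, g * h ≠ h * g := by
  obtain ⟨h, hh, n, w, hvw, hw⟩ := rist_moves_one hq hU v
  obtain ⟨g, hg, k, x, hwx, hx⟩ := rist_moves_one hq hU w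
  refine ⟨g, rist_mono U hvw hg, h, hh, ?_⟩
  intro hgh
  have h1 := rist_conj hU.1 hh.1 hg
  have h2 : h * g * h⁻¹ = g := by rw [← hgh, mul_inv_cancel_right]
  rw [h2] at h1
  apply hx
  apply h1.2 k x
  intro h3
  rw [below_iff] at hwx h3
  obtain ⟨e1, e2⟩ := hwx
  obtain ⟨e3, e4⟩ := h3
  exact hw (e4.symm.trans e2)

/-- The forest structure of a branch group. -/
def treeBF : BF U (VT q) where
  act := (actT q).comp U.subtype
  lev v := v.1
  anc := ancT
  lev_anc k v h := by rw [ancT_of_le h]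
  anc_lev v := by rw [ancT_of_le le_rfl, trunc_self]
  anc_anc j k v h1 h2 := by
    rw [ancT_of_le h2, ancT_of_le (v := ⟨k, _⟩) h1, trunc_trunc, ancT_of_le (h1.trans h2)]
  fin l := by
    have : ({v : VT q | v.1 = l}) ⊆ Set.range (fun v : Vert q l => (⟨l, v⟩ : VT q)) := by
      rintro ⟨m, v⟩ (rfl : m = l)
      exact ⟨v, rfl⟩
    exact (Set.finite_range _).subset this
  desc v l h := by
    obtain ⟨w, hw⟩ := exists_ext hq h v.2
    refine ⟨⟨l, w⟩, rfl, ?_⟩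
    rw [ancT_of_le (v := ⟨l, w⟩) h, hw]
  lev_act g v := rfl
  anc_act g k v h := by
    have h1 : actT q g.1 v = ⟨v.1, g.1 v.1 v.2⟩ := rfl
    show ancT k (actT q g.1 v) = actT q g.1 (ancT k v)
    rw [h1, ancT_of_le (v := ⟨v.1, g.1 v.1 v.2⟩) h, ancT_of_le h, actT_apply]
    show (⟨k, _⟩ : VT q) = ⟨k, _⟩
    rw [mk_eq_iff]
    exact AutT.trunc (hU.1 g.2) h v.2
  R v := (rist U v.2).subgroupOf U
  R_supp v g hg w h1 h2 := by
    show actT q g.1 w = w
    rw [actT_apply]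
    have h3 : ¬ Below v.2 w.2 := by
      intro h3
      apply h2
      rw [ancT_of_le h1, (below_iff_of_le h1).mp h3]
    have h4 : g.1 w.1 w.2 = w.2 := hg.2 w.1 w.2 h3
    rw [h4]
  R_mono v w h1 h2 := by
    intro g hg
    have h3 : Below v.2 w.2 := by
      rw [ancT_of_le h1] at h2
      rw [below_iff_of_le h1]
      obtain ⟨m, v⟩ := v
      exact mk_eq_iff.mp h2
    exact rist_mono U h3 hg
  R_conj g v h hh := rist_conj hU.1 g.2 hh
  R_nonab v := by
    obtain ⟨g, hg, h, hh, hgh⟩ := rist_nonab hq hU v.2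
    exact ⟨⟨g, hg.1⟩, hg, ⟨h, hh.1⟩, hh, fun h => hgh (congrArg Subtype.val h)⟩
  R_moves l0 := by
    obtain ⟨v0⟩ : Nonempty (Vert q l0) := ⟨fun i => ⟨0, by have := hq i; omega⟩⟩
    obtain ⟨h, hh, n, w0, hvw, hw0⟩ := rist_moves_one hq hU v0
    obtain ⟨hle, htr⟩ := below_iff.mp hvw
    refine ⟨n, hle, ?_⟩
    rintro ⟨k, w⟩ (hk : n ≤ k)
    obtain ⟨g, hg, hgw⟩ := hU.2.2.1 n w0 (trunc hk w)
    have h1 : g l0 v0 = trunc (hle.trans hk) w := by
      rw [← trunc_trunc hle hk, ← hgw, AutT.trunc (hU.1 hg), htr]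
    have h2 := rist_conj hU.1 hg hh
    refine ⟨⟨g * h * g⁻¹, mul_mem (mul_mem hg hh.1) (inv_mem hg)⟩, ?_, ?_⟩
    · show g * h * g⁻¹ ∈ rist U (ancT l0 (⟨k, w⟩ : VT q)).2
      rw [ancT_of_le (v := (⟨k, w⟩ : VT q)) (hle.trans hk)]
      show g * h * g⁻¹ ∈ rist U (trunc (hle.trans hk) w)
      rw [← h1]
      exact h2
    · intro h3
      have h4 : (⟨k, (g * h * g⁻¹) k w⟩ : VT q) = ⟨k, w⟩ := h3
      rw [mk_eq_iff] at h4
      have h5 := AutT.trunc (hU.1 (mul_mem (mul_mem hg hh.1) (inv_mem hg))) hk w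
      rw [h4, ← hgw] at h5
      have h6 : (g * h * g⁻¹) n (g n w0) = g n (h n w0) := by
        show g n (h n ((g n)⁻¹ (g n w0))) = _
        rw [pinv']
      rw [h6] at h5
      exact hw0 ((g n).injective h5).symm
  faithful g l h := by
    apply Subtype.ext
    funext n
    ext w : 1
    show g.1 n w = w
    obtain ⟨x, hx⟩ := exists_ext hq (le_max_left n l) w
    have h1 : (⟨max n l, g.1 (max n l) x⟩ : VT q) = ⟨max n l, x⟩ := h ⟨max n l, x⟩ (le_max_right _ _)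
    rw [mk_eq_iff] at h1
    rw [← hx, ← AutT.trunc (hU.1 g.2), h1]

end branch

end Pool.Agent.Q24.RB
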